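import Pool.Agent.Y213.HT.GeoO
import Pool.Agent.TH954.Expo
import Pool.Agent.TH942.Grp

/-! The points near the origin modulo `N` are a subgroup of finite index. -/

set_option autoImplicit false

namespace Pool.Agent.Y213.HT

open WeierstrassCurve Pool.Agent.H901R3.MS Pool.Agent.Y213.R1 Pool.Agent.Y213.BD
open IsDedekindDomain NumberField Pool.Agent.TH954 Pool.Agent.TH942

variable {K : Type} [Field K] [NumberField K]

theorem shortInt_sw' (a b : 𝓞 K) (hd : 4 * a ^ 3 + 27 * b ^ 2 ≠ 0) :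
    ShortInt (sw (a : K) (b : K)) where
  h1 := rfl
  h2 := rfl
  h3 := rfl
  ia := a.2
  ib := b.2
  disc := by
    intro h
    apply hd
    apply RingOfIntegers.ext
    have h2 : ((4 * a ^ 3 + 27 * b ^ 2 : 𝓞 K) : K) = 4 * (a : K) ^ 3 + 27 * (b : K) ^ 2 := by
      simp only [map_mul, map_add, map_pow, map_ofNat]
    rw [h2]
    exact h

/-- divisibility by norms -/
theorem dvd_of_norm {x N : 𝓞 K} (hN : N ≠ 0)
    (h : ∀ v : HeightOneSpectrum (𝓞 K),
      ‖algebraMap K (v.adicCompletion K) (algebraMap (𝓞 K) K x)‖ ≤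
      ‖algebraMap K (v.adicCompletion K) (algebraMap (𝓞 K) K N)‖) : N ∣ x := by
  have hNK : algebraMap (𝓞 K) K N ≠ 0 := RingOfIntegers.coe_ne_zero_iff.2 hN
  have h1 : ∀ v : HeightOneSpectrum (𝓞 K),
      v.valuation K (algebraMap (𝓞 K) K x / algebraMap (𝓞 K) K N) ≤ 1 := by
    intro v
    apply val_le_one_of_norm
    rw [map_div₀, norm_div]
    exact div_le_one_of_le₀ (h v) (norm_nonneg _)
  obtain ⟨y, hy⟩ := HeightOneSpectrum.mem_integers_of_valuation_le_one K _ h1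
  refine ⟨y, ?_⟩
  apply RingOfIntegers.ext
  show algebraMap (𝓞 K) K x = algebraMap (𝓞 K) K (N * y)
  rw [map_mul, hy]
  field_simp

open scoped Classical in
theorem big_coord {a b : 𝓞 K} (hE : ShortInt (sw (a : K) (b : K)))
    (v : HeightOneSpectrum (𝓞 K)) {R : ℝ} (hR : 1 < R)
    {P : Pt (algebraMap (𝓞 K) K a) (algebraMap (𝓞 K) K b)} {u : Fin 3 → 𝓞 K} (hu : IsRep P u)
    (hB : Big R (locHom (L := v.adicCompletion K) (sw (a : K) (b : K)) P)) :
    ‖algebraMap K (v.adicCompletion K) (algebraMap (𝓞 K) K (u 0))‖ ^ 2 * R ≤ 1 ∧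
      ‖algebraMap K (v.adicCompletion K) (algebraMap (𝓞 K) K (u 2))‖ ^ 2 * R ≤ 1 := by
  obtain ⟨c, hc, hu⟩ := hu
  rcases P with _ | ⟨x, y, hn⟩
  · have h0 := hu 0
    have h2 := hu 2
    have e : rep (Affine.Point.zero : Pt (algebraMap (𝓞 K) K a) (algebraMap (𝓞 K) K b)) =
      ![0, 1, 0] := rfl
    rw [e] at h0 h2
    simp only [Matrix.cons_val_zero, Matrix.cons_val, mul_zero] at h0 h2
    rw [h0, h2, map_zero, norm_zero]
    norm_num
  · have h0 := hu 0
    have h1 := hu 1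
    have h2 := hu 2
    rw [rep_some] at h0 h1 h2
    simp only [Matrix.cons_val_zero, Matrix.cons_val_one, Matrix.cons_val, mul_one] at h0 h1 h2
    obtain ⟨h', e'⟩ := locHom_some (L := v.adicCompletion K) (sw (a : K) (b : K)) hn
    have hB' : R ≤ ‖algebraMap K (v.adicCompletion K) x‖ := hB _ _ h' e'
    have hx1 : 1 < ‖algebraMap K (v.adicCompletion K) x‖ := hR.trans_le hB'
    have hy := (hE.si v).norm_y_eq h' hx1
    have hu1 : ‖algebraMap K (v.adicCompletion K) (algebraMap (𝓞 K) K (u 1))‖ ≤ 1 := norm_le_of_int v (u 1).2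
    rw [h0, h2]
    rw [h1] at hu1
    rw [map_mul, norm_mul] at hu1 ⊢
    set X := ‖algebraMap K (v.adicCompletion K) x‖ with hX
    set Y := ‖algebraMap K (v.adicCompletion K) y‖ with hY
    set Z := ‖algebraMap K (v.adicCompletion K) c‖ with hZ
    have hZ0 : 0 ≤ Z := norm_nonneg _
    have hY0 : 0 ≤ Y := norm_nonneg _
    have h3 : (Z * Y) ^ 2 ≤ 1 := pow_le_one₀ (by positivity) hu1
    rw [mul_pow, hy] at h3
    have hX0 : 0 < X := by linarith
    constructor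
    · calc (Z * X) ^ 2 * R ≤ (Z * X) ^ 2 * X := by gcongr
        _ = Z ^ 2 * X ^ 3 := by ring
        _ ≤ 1 := h3
    · calc Z ^ 2 * R ≤ Z ^ 2 * X := by gcongr
        _ ≤ Z ^ 2 * X ^ 3 := by
            gcongr
            exact le_self_pow₀ hx1.le (by norm_num)
        _ ≤ 1 := h3

open scoped Classical in
/-- a common multiple is near the origin -/
theorem exists_mult_near {a b : 𝓞 K} (hd : 4 * a ^ 3 + 27 * b ^ 2 ≠ 0) {N : ℕ} (hN : 0 < N) :
    ∃ M : ℕ, 0 < M ∧ ∀ P : Pt (algebraMap (𝓞 K) K a) (algebraMap (𝓞 K) K b), NearP N (M • P) := by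
  have hE := shortInt_sw' a b hd
  have hN0 : (N : 𝓞 K) ≠ 0 := Nat.cast_ne_zero.2 hN.ne'
  have hNK : algebraMap (𝓞 K) K (N : 𝓞 K) ≠ 0 := RingOfIntegers.coe_ne_zero_iff.2 hN0
  have hfin : {v : HeightOneSpectrum (𝓞 K) | (N : 𝓞 K) ∈ v.asIdeal}.Finite := by
    have h1 := Ideal.finite_factors (I := Ideal.span {(N : 𝓞 K)}) (by
      rw [Ne, Ideal.zero_eq_bot, Ideal.span_singleton_eq_bot]
      exact hN0)
    refine h1.subset fun v hv => ?_
    rw [Set.mem_setOf_eq, Ideal.dvd_iff_le, Ideal.span_singleton_le_iff_mem]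
    exact hv
  set V := hfin.toFinset with hV
  set R : ℝ := 2 + ∑ v ∈ V, (‖algebraMap K (v.adicCompletion K) (algebraMap (𝓞 K) K (N : 𝓞 K))‖ ^ 2)⁻¹ with hR
  have hR1 : 1 < R := by
    have : 0 ≤ ∑ v ∈ V, (‖algebraMap K (v.adicCompletion K) (algebraMap (𝓞 K) K (N : 𝓞 K))‖ ^ 2)⁻¹ :=
      Finset.sum_nonneg fun v _ => by positivity
    linarith
  obtain ⟨M, hM, hMV⟩ := exists_expo_finset hE V hR1
  refine ⟨M, hM, fun P => ?_⟩
  obtain ⟨u, hu, pu⟩ := hex (R := 𝓞 K) (K := K) (a := a) (b := b) hN0 (M • P)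
  have key : ∀ v : HeightOneSpectrum (𝓞 K),
      ‖algebraMap K (v.adicCompletion K) (algebraMap (𝓞 K) K (u 0))‖ ≤
        ‖algebraMap K (v.adicCompletion K) (algebraMap (𝓞 K) K (N : 𝓞 K))‖ ∧
      ‖algebraMap K (v.adicCompletion K) (algebraMap (𝓞 K) K (u 2))‖ ≤
        ‖algebraMap K (v.adicCompletion K) (algebraMap (𝓞 K) K (N : 𝓞 K))‖ := by
    intro v
    by_cases hv : v ∈ V
    · have hB : Big R (locHom (L := v.adicCompletion K) (sw (a : K) (b : K)) (M • P)) := by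
        have h1 := map_nsmul (locHom (L := v.adicCompletion K) (sw (a : K) (b : K))) M P
        have h2 := hMV v hv (locHom (L := v.adicCompletion K) (sw (a : K) (b : K)) P)
        exact (congrArg (Big R) h1).mpr h2
      obtain ⟨h1, h2⟩ := big_coord hE v hR1 hu hB
      have h3 : (‖algebraMap K (v.adicCompletion K) (algebraMap (𝓞 K) K (N : 𝓞 K))‖ ^ 2)⁻¹ ≤ R := by
        have h4 := Finset.single_le_sum (f := fun v : HeightOneSpectrum (𝓞 K) =>
          (‖algebraMap K (v.adicCompletion K) (algebraMap (𝓞 K) K (N : 𝓞 K))‖ ^ 2)⁻¹)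
          (fun v _ => by positivity) hv
        have h5 : (0 : ℝ) ≤ 2 := by norm_num
        linarith
      have hn0 : 0 < ‖algebraMap K (v.adicCompletion K) (algebraMap (𝓞 K) K (N : 𝓞 K))‖ :=
        norm_pos_iff.2 (char_ne v hNK)
      have key2 : ∀ x : ℝ, 0 ≤ x → x ^ 2 * R ≤ 1 →
          x ≤ ‖algebraMap K (v.adicCompletion K) (algebraMap (𝓞 K) K (N : 𝓞 K))‖ := by
        intro x hx hxR
        have h6 : x ^ 2 * (‖algebraMap K (v.adicCompletion K) (algebraMap (𝓞 K) K (N : 𝓞 K))‖ ^ 2)⁻¹ ≤ 1 :=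
          le_trans (by gcongr) hxR
        rw [← div_eq_mul_inv, div_le_one (by positivity)] at h6
        exact (pow_le_pow_iff_left₀ hx hn0.le (by norm_num)).1 h6
      exact ⟨key2 _ (norm_nonneg _) h1, key2 _ (norm_nonneg _) h2⟩
    · have h1 : (N : 𝓞 K) ∉ v.asIdeal := fun h => hv (hfin.mem_toFinset.2 h)
      have h2 : ‖algebraMap K (v.adicCompletion K) (algebraMap (𝓞 K) K (N : 𝓞 K))‖ = 1 :=
        (FinitePlace.norm_eq_one_iff_notMem K v _).2 h1
      rw [h2]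
      exact ⟨norm_le_of_int v (u 0).2, norm_le_of_int v (u 2).2⟩
  exact ⟨u, hu, pu, dvd_of_norm hN0 fun v => (key v).1, dvd_of_norm hN0 fun v => (key v).2⟩

open scoped Classical in
theorem finite_quot {a b : 𝓞 K} (hd : 4 * a ^ 3 + 27 * b ^ 2 ≠ 0) {N : ℕ} (hN : 0 < N)
    (hinj : Function.Injective (algebraMap (𝓞 K) K))
    (hex : ∀ P : Pt (algebraMap (𝓞 K) K a) (algebraMap (𝓞 K) K b),
      ∃ u : Fin 3 → 𝓞 K, IsRep P u ∧ Prm N u) :
    Finite (Pt (algebraMap (𝓞 K) K a) (algebraMap (𝓞 K) K b) ⧸ nearG hinj hex) := by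
  have hE := shortInt_sw' a b hd
  obtain ⟨M, hM, hMP⟩ := exists_mult_near (a := a) (b := b) hd hN
  have hfg : AddGroup.FG (SPt (a : K) (b : K)) := sfg hE.disc
  have hfg' : AddGroup.FG (Pt (algebraMap (𝓞 K) K a) (algebraMap (𝓞 K) K b)) := hfg
  have : AddGroup.FG (Pt (algebraMap (𝓞 K) K a) (algebraMap (𝓞 K) K b) ⧸ nearG hinj hex) :=
    inferInstance
  refine AddCommGroup.finite_of_fg_torsion _ fun x => ?_
  obtain ⟨P, rfl⟩ := QuotientAddGroup.mk_surjective x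
  rw [isOfFinAddOrder_iff_nsmul_eq_zero]
  refine ⟨M, hM, ?_⟩
  rw [← QuotientAddGroup.mk_nsmul, QuotientAddGroup.eq_zero_iff]
  exact hMP P

end Pool.Agent.Y213.HT
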