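import Pool.Agent.Y213.HT.Val
import Pool.Agent.Y213.HT.FinQ
import Pool.Agent.W858.SF.Comp
import Pool.Agent.TH954.Closure

/-! If the closure of the group of rational points contains no point of the variety, then the
reductions modulo some natural number show this. -/

set_option autoImplicit false

namespace Pool.Agent.Y213.HT

open WeierstrassCurve Pool.Agent.H901R3.MS Pool.Agent.Y213.R1 Pool.Agent.Y213.BD
open IsDedekindDomain NumberField Pool.Agent.TH954 Pool.Agent.TH942 WithZero Filter Topology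

variable {K : Type} [Field K] [NumberField K]

theorem proper (v : HeightOneSpectrum (𝓞 K)) : ProperSpace (v.adicCompletion K) := by
  refine (Valued.integer.properSpace_iff_completeSpace_and_isDiscreteValuationRing_integer_and_finite_residueField (K := v.adicCompletion K) (Γ₀ := ℤᵐ⁰)).2 ⟨inferInstance, ?_, ?_⟩
  · have h : IsDiscreteValuationRing (v.adicCompletionIntegers K) := inferInstance
    exact h
  · have h := Pool.Agent.W858.SF.finite_residue (L := K) v
    exact h

/-- the embedding of the integers in a completion -/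
noncomputable def em (v : HeightOneSpectrum (𝓞 K)) : 𝓞 K →+* v.adicCompletion K :=
  (algebraMap K (v.adicCompletion K)).comp (algebraMap (𝓞 K) K)

theorem em_le (v : HeightOneSpectrum (𝓞 K)) (x : 𝓞 K) : ‖em v x‖ ≤ 1 := norm_le_of_int v x.2

theorem em_inj (v : HeightOneSpectrum (𝓞 K)) : Function.Injective (em v) := by
  intro x y h
  exact RingOfIntegers.ext ((algebraMap K (v.adicCompletion K)).injective h)

theorem exists_lim (U : Ultrafilter ℕ) (v : HeightOneSpectrum (𝓞 K)) (x : ℕ → 𝓞 K) :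
    ∃ y : v.adicCompletion K, ‖y‖ ≤ 1 ∧ Tendsto (fun m => em v (x m)) U (𝓝 y) := by
  have := proper v
  obtain ⟨y, hy, h⟩ := (isCompact_closedBall (0 : v.adicCompletion K) 1).ultrafilter_le_nhds
    (U.map fun m => em v (x m)) (by
      rw [Filter.le_principal_iff, Ultrafilter.coe_map]
      refine Filter.mem_map.2 (Filter.univ_mem' fun m => ?_)
      show em v (x m) ∈ Metric.closedBall (0 : v.adicCompletion K) 1
      rw [mem_closedBall_zero_iff]
      exact em_le v _)
  exact ⟨y, mem_closedBall_zero_iff.1 hy, h⟩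

theorem fact_lim (v : HeightOneSpectrum (𝓞 K)) :
    Tendsto (fun m : ℕ => ‖em v ((m.factorial : ℕ) : 𝓞 K)‖) atTop (𝓝 0) := by
  set q := Ideal.absNorm v.asIdeal with hq
  have hq0 : 0 < q := Nat.pos_of_ne_zero (by
    rw [hq, Ne, Ideal.absNorm_eq_zero_iff]
    exact v.ne_bot)
  have hq1 : ‖em v (q : 𝓞 K)‖ < 1 :=
    (FinitePlace.norm_lt_one_iff_mem K v _).2 (Ideal.absNorm_mem _)
  rw [Metric.tendsto_atTop]
  intro ε hε
  obtain ⟨j, hj⟩ := exists_pow_lt_of_lt_one hε hq1
  refine ⟨q ^ j, fun m hm => ?_⟩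
  obtain ⟨s, hs⟩ := Nat.dvd_factorial (pow_pos hq0 j) hm
  rw [dist_zero_right, norm_norm, hs, Nat.cast_mul, Nat.cast_pow, map_mul, map_pow, norm_mul,
    norm_pow]
  calc ‖em v (q : 𝓞 K)‖ ^ j * ‖em v (s : 𝓞 K)‖ ≤ ‖em v (q : 𝓞 K)‖ ^ j * 1 := by
        gcongr
        exact em_le v _
    _ < ε := by rw [mul_one]; exact hj

theorem delta_ne {L : Type} [Field L] {W : WeierstrassCurve L} (hW : Short W) (h2 : (2 : L) ≠ 0)
    (hd : 4 * W.a₄ ^ 3 + 27 * W.a₆ ^ 2 ≠ 0) : W.Δ ≠ 0 := by
  have e : W.Δ = -(2 ^ 4) * (4 * W.a₄ ^ 3 + 27 * W.a₆ ^ 2) := by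
    simp only [WeierstrassCurve.Δ, WeierstrassCurve.b₂, WeierstrassCurve.b₄, WeierstrassCurve.b₆,
      WeierstrassCurve.b₈, hW.h1, hW.h2, hW.h3]
    ring
  rw [e]
  exact mul_ne_zero (neg_ne_zero.2 (pow_ne_zero _ h2)) hd

/-- the point with given homogeneous coordinates -/
theorem point_of_coords {L : Type} [Field L] {W : WeierstrassCurve L} (hW : Short W)
    (h2 : (2 : L) ≠ 0) (hd : 4 * W.a₄ ^ 3 + 27 * W.a₆ ^ 2 ≠ 0) {V : Fin 3 → L} (hV : V ≠ 0)
    (he : V 1 ^ 2 * V 2 = V 0 ^ 3 + W.a₄ * V 0 * V 2 ^ 2 + W.a₆ * V 2 ^ 3) :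
    ∃ (T : W.toAffine.Point) (k : L), k ≠ 0 ∧ ∀ j, V j = k * crd T j := by
  by_cases h : V 2 = 0
  · have h0 : V 0 = 0 := by
      rw [h] at he
      have : V 0 ^ 3 = 0 := by linear_combination -he
      exact (pow_eq_zero_iff (by norm_num)).1 this
    refine ⟨0, V 1, ?_, ?_⟩
    · intro h1
      apply hV
      funext j
      fin_cases j
      · exact h0
      · exact h1
      · exact h
    · intro j
      rw [crd_zero]
      fin_cases j
      · simp [h0]
      · simp
      · simp [h]
  · have heq : W.toAffine.Equation (V 0 / V 2) (V 1 / V 2) := by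
      rw [WeierstrassCurve.Affine.equation_iff]
      rw [hW.h1, hW.h2, hW.h3]
      field_simp
      linear_combination he
    refine ⟨Affine.Point.some (V 0 / V 2) (V 1 / V 2)
      ((WeierstrassCurve.Affine.equation_iff_nonsingular_of_Δ_ne_zero
        (delta_ne hW h2 hd)).1 heq), V 2, h, ?_⟩
    intro j
    show V j = V 2 * (![V 0 / V 2, V 1 / V 2, 1] : Fin 3 → L) j
    fin_cases j
    · simp only [Matrix.cons_val_zero, Fin.zero_eta]
      field_simp
    · show V 1 = V 2 * (V 1 / V 2)
      field_simp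
    · simp

theorem crd_eq_rep {a b : K} (P : Pt a b) : crd (W := CV a b) P = rep P := by
  rcases P with _ | ⟨x, y, h⟩ <;> rfl

theorem norm_vec_eq_one {v : HeightOneSpectrum (𝓞 K)} {V W : Fin 3 → v.adicCompletion K}
    (hV : ∀ j, ‖V j‖ ≤ 1) (hW : ∀ j, ‖W j‖ ≤ 1) (h : ‖V 0 * W 0 + V 1 * W 1 + V 2 * W 2‖ = 1) :
    ‖V‖ = 1 := by
  apply le_antisymm
  · rw [pi_norm_le_iff_of_nonneg zero_le_one]
    exact hV
  · rw [← h]
    have key : ∀ j, ‖V j * W j‖ ≤ ‖V‖ := fun j => by
      rw [norm_mul]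
      calc ‖V j‖ * ‖W j‖ ≤ ‖V‖ * 1 := by
            gcongr
            · exact norm_le_pi_norm V j
            · exact hW j
        _ = ‖V‖ := mul_one _
    exact uadd (uadd (key 0) (key 1)) (key 2)

theorem value_tendsto {R C L : Type} [CommRing R] [Primcodable C] (c : Cod R C) [NormedField L]
    (φ : R →+* L) (U : Filter ℕ) (x : ℕ → ℕ → L) (y : ℕ → L)
    (h : ∀ j, Tendsto (fun m => x m j) U (𝓝 (y j))) (p : Po C) :
    Tendsto (fun m => value c φ (x m) p) U (𝓝 (value c φ y p)) := by
  have h1 : ∀ l : List ℕ, Tendsto (fun m => (l.map (x m)).prod) U (𝓝 (l.map y).prod) := by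
    intro l
    induction l with
    | nil => simp only [List.map_nil, List.prod_nil]; exact tendsto_const_nhds
    | cons j l ih =>
      simp only [List.map_cons, List.prod_cons]
      exact (h j).mul ih
  unfold value
  induction p with
  | nil => simp only [List.map_nil, List.sum_nil]; exact tendsto_const_nhds
  | cons t p ih =>
    simp only [List.map_cons, List.sum_cons]
    exact (tendsto_const_nhds.mul (h1 t.2)).add ih

open scoped Classical in
theorem bridge {C : Type} [Primcodable C] (c : Cod (𝓞 K) C) {a b : 𝓞 K}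
    (hd : 4 * a ^ 3 + 27 * b ^ 2 ≠ 0) (g : ℕ) (fs : List (Po C)) (hfs : ∀ p ∈ fs, MHL g p)
    (S : Set (MvPolynomial (Fin g × Fin 3) K))
    (hS : S = {f | ∃ p ∈ fs, f = toMv c (algebraMap (𝓞 K) K) g p})
    (hno : ¬ ∃ x ∈ adelicClosure (E := sw (a : K) (b : K)) (n := g) ∅ Set.univ,
      ∀ v, OnX S (fun i => crd (x v i))) :
    ∃ N : ℕ, 0 < N ∧ ∀ (P : ℕ → Pt (algebraMap (𝓞 K) K a) (algebraMap (𝓞 K) K b))
      (t : ℕ → Fin 3 → 𝓞 K), (∀ k < g, IsRep (P k) (t k) ∧ Prm N (t k)) →
      ∃ p ∈ fs, ¬ (N : 𝓞 K) ∣ value c (RingHom.id _) (vr t) p := by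
  by_contra hcon
  push Not at hcon
  apply hno
  have hE := shortInt_sw' a b hd
  choose P t hPt hval using fun m : ℕ => hcon m.factorial (Nat.factorial_pos m)
  have hprm : ∀ m k, ∃ (W : Fin 3 → 𝓞 K) (z : 𝓞 K), k < g →
      t m k 0 * W 0 + t m k 1 * W 1 + t m k 2 * W 2 + (m.factorial : ℕ) * z = 1 := by
    intro m k
    by_cases hk : k < g
    · obtain ⟨W, z, h⟩ := (hPt m k hk).2
      exact ⟨W, z, fun _ => h⟩
    · exact ⟨0, 0, fun h => absurd h hk⟩
  choose W z hWz using hprm
  set U : Ultrafilter ℕ := hyperfilter ℕ with hU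
  choose V hV1 hV2 using fun (v : HeightOneSpectrum (𝓞 K)) (k : ℕ) (j : Fin 3) =>
    exists_lim U v (fun m => t m k j)
  choose Y hY1 hY2 using fun (v : HeightOneSpectrum (𝓞 K)) (k : ℕ) (j : Fin 3) =>
    exists_lim U v (fun m => W m k j)
  have hfact : ∀ v : HeightOneSpectrum (𝓞 K),
      Tendsto (fun m : ℕ => ‖em v ((m.factorial : ℕ) : 𝓞 K)‖) U (𝓝 0) := fun v =>
    (fact_lim v).mono_left Nat.hyperfilter_le_atTop
  have hsmall : ∀ (v : HeightOneSpectrum (𝓞 K)) (x : ℕ → 𝓞 K),
      (∀ m, ((m.factorial : ℕ) : 𝓞 K) ∣ x m) → Tendsto (fun m => em v (x m)) U (𝓝 0) := by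
    intro v x hx
    rw [tendsto_zero_iff_norm_tendsto_zero]
    refine squeeze_zero (fun m => norm_nonneg _) (fun m => ?_) (hfact v)
    obtain ⟨y, hy⟩ := hx m
    rw [hy, map_mul, norm_mul]
    exact mul_le_of_le_one_right (norm_nonneg _) (em_le v y)
  -- the limits
  have hVY : ∀ v, ∀ k < g, V v k 0 * Y v k 0 + V v k 1 * Y v k 1 + V v k 2 * Y v k 2 = 1 := by
    intro v k hk
    have h1 : Tendsto (fun m => em v (t m k 0 * W m k 0 + t m k 1 * W m k 1 + t m k 2 * W m k 2 +
        (m.factorial : ℕ) * z m k)) U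
        (𝓝 (V v k 0 * Y v k 0 + V v k 1 * Y v k 1 + V v k 2 * Y v k 2 + 0)) := by
      simp only [map_add, map_mul]
      refine ((((hV2 v k 0).mul (hY2 v k 0)).add ((hV2 v k 1).mul (hY2 v k 1))).add
        ((hV2 v k 2).mul (hY2 v k 2))).add ?_
      have h2 := hsmall v (fun m => ((m.factorial : ℕ) : 𝓞 K) * z m k) (fun m => ⟨_, rfl⟩)
      simpa only [map_mul] using h2
    have h3 : (fun m => em v (t m k 0 * W m k 0 + t m k 1 * W m k 1 + t m k 2 * W m k 2 +
        (m.factorial : ℕ) * z m k)) = fun _ => 1 := by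
      funext m
      rw [hWz m k hk, map_one]
    rw [h3] at h1
    have h4 := tendsto_nhds_unique h1 tendsto_const_nhds
    rw [add_zero] at h4
    exact h4
  have hVn : ∀ v, ∀ k < g, ‖V v k‖ = 1 := by
    intro v k hk
    refine norm_vec_eq_one (W := Y v k) (hV1 v k) (hY1 v k) ?_
    rw [hVY v k hk, norm_one]
  have hVe : ∀ v, ∀ k < g, V v k 1 ^ 2 * V v k 2 = V v k 0 ^ 3 + em v a * V v k 0 * V v k 2 ^ 2 +
      em v b * V v k 2 ^ 3 := by
    intro v k hk
    have h1 : Tendsto (fun m => em v (t m k 1 ^ 2 * t m k 2)) U (𝓝 (V v k 1 ^ 2 * V v k 2)) := by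
      simp only [map_mul, map_pow]
      exact ((hV2 v k 1).pow 2).mul (hV2 v k 2)
    have h2 : Tendsto (fun m => em v (t m k 0 ^ 3 + a * t m k 0 * t m k 2 ^ 2 + b * t m k 2 ^ 3)) U
        (𝓝 (V v k 0 ^ 3 + em v a * V v k 0 * V v k 2 ^ 2 + em v b * V v k 2 ^ 3)) := by
      simp only [map_mul, map_pow, map_add]
      exact (((hV2 v k 0).pow 3).add ((tendsto_const_nhds.mul (hV2 v k 0)).mul
        ((hV2 v k 2).pow 2))).add (tendsto_const_nhds.mul ((hV2 v k 2).pow 3))
    have h3 : (fun m => em v (t m k 1 ^ 2 * t m k 2)) = fun m =>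
        em v (t m k 0 ^ 3 + a * t m k 0 * t m k 2 ^ 2 + b * t m k 2 ^ 3) := by
      funext m
      rw [(hPt m k hk).1.eqn (IsFractionRing.injective (𝓞 K) K)]
    rw [h3] at h1
    exact tendsto_nhds_unique h1 h2
  -- the local points
  have hpt : ∀ (v : HeightOneSpectrum (𝓞 K)) (k : ℕ), ∃ (T : ((sw (a : K) (b : K)).baseChange
      (v.adicCompletion K)).toAffine.Point) (l : v.adicCompletion K), k < g →
      l ≠ 0 ∧ ∀ j, V v k j = l * crd T j := by
    intro v k
    by_cases hk : k < g
    · obtain ⟨T, l, hl, h⟩ := point_of_coords (hE.si v).toShort (two_ne v) (hE.disc_loc v)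
        (V := V v k) (by
          intro h0
          have h1 := hVn v k hk
          rw [h0, norm_zero] at h1
          exact zero_ne_one h1) (hVe v k hk)
      exact ⟨T, l, fun _ => ⟨hl, h⟩⟩
    · exact ⟨0, 0, fun h => absurd h hk⟩
  choose T l hT using hpt
  refine ⟨fun v k => T v.1 k, ?_, ?_⟩
  · intro F ε hε
    -- a good index
    have hev : ∀ᶠ m in (U : Filter ℕ), ∀ v ∈ F, ∀ k ∈ Finset.range g,
        (‖em v.1 ((m.factorial : ℕ) : 𝓞 K)‖ < 1 ∧ ∀ j ∈ (Finset.univ : Finset (Fin 3)),
          ‖V v.1 k j - em v.1 (t m k j)‖ < ε) := by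
      rw [Filter.eventually_all_finset]
      intro v _
      rw [Filter.eventually_all_finset]
      intro k _
      refine ((hfact v.1).eventually (gt_mem_nhds zero_lt_one)).and ?_
      rw [Filter.eventually_all_finset]
      intro j _
      have h1 := (tendsto_const_nhds (x := V v.1 k j)).sub (hV2 v.1 k j)
      rw [sub_self] at h1
      have h2 := h1.norm
      rw [norm_zero] at h2
      exact h2.eventually (gt_mem_nhds hε)
    obtain ⟨m, hm⟩ := hev.exists
    refine ⟨fun k => P m k, Set.mem_univ _, fun v hv k => ?_⟩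
    have hk := k.2
    obtain ⟨h1, h2⟩ := hm v hv k (Finset.mem_range.2 hk)
    obtain ⟨hl, hlV⟩ := hT v.1 k hk
    obtain ⟨c', hc', hr⟩ := (hPt m k hk).1
    refine ⟨l v.1 k, algebraMap K (v.1.adicCompletion K) c', ?_, ?_, ?_⟩
    · have e : l v.1 k • crd (T v.1 k) = V v.1 k := by
        funext j
        rw [Pi.smul_apply, smul_eq_mul]
        exact (hlV j).symm
      rw [e]
      exact hVn v.1 k hk
    · have e : (algebraMap K (v.1.adicCompletion K) c' • fun j =>
          algebraMap K (v.1.adicCompletion K) (crd (W := sw (a : K) (b : K)) (P m k) j)) =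
          fun j => em v.1 (t m k j) := by
        funext j
        rw [Pi.smul_apply, smul_eq_mul, ← map_mul]
        show algebraMap K (v.1.adicCompletion K) _ =
          algebraMap K (v.1.adicCompletion K) (algebraMap (𝓞 K) K (t m k j))
        rw [hr j]
        congr 2
        exact congrFun (crd_eq_rep (P m k)) j
      rw [e]
      refine norm_vec_eq_one (W := fun j => em v.1 (W m k j)) (fun j => em_le _ _)
        (fun j => em_le _ _) ?_
      have h3 := congrArg (em v.1) (hWz m k hk)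
      simp only [map_add, map_mul, map_one] at h3
      have h4 : em v.1 (t m k 0) * em v.1 (W m k 0) + em v.1 (t m k 1) * em v.1 (W m k 1) +
          em v.1 (t m k 2) * em v.1 (W m k 2) =
          1 - em v.1 ((m.factorial : ℕ) : 𝓞 K) * em v.1 (z m k) := by
        linear_combination h3
      rw [h4, usub_eq, norm_one]
      rw [norm_one, norm_mul]
      exact lt_of_le_of_lt (mul_le_of_le_one_right (norm_nonneg _) (em_le _ _)) h1
    · rw [pi_norm_lt_iff hε]
      intro j
      have h3 := h2 j (Finset.mem_univ _)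
      have e1 : (l v.1 k • crd (T v.1 k)) j = V v.1 k j := by
        rw [Pi.smul_apply, smul_eq_mul]
        exact (hlV j).symm
      have e2 : (algebraMap K (v.1.adicCompletion K) c' • fun j =>
          algebraMap K (v.1.adicCompletion K) (crd (W := sw (a : K) (b : K)) (P m k) j)) j =
          em v.1 (t m k j) := by
        rw [Pi.smul_apply, smul_eq_mul, ← map_mul]
        show algebraMap K (v.1.adicCompletion K) _ =
          algebraMap K (v.1.adicCompletion K) (algebraMap (𝓞 K) K (t m k j))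
        rw [hr j]
        congr 2
        exact congrFun (crd_eq_rep (P m k)) j
      rw [Pi.sub_apply, e1]
      rw [e2]
      exact h3
  · intro v f hf
    rw [hS] at hf
    obtain ⟨p, hp, rfl⟩ := hf
    -- the value at the limit is zero
    have h1 : value c (em v.1) (vr (V v.1)) p = 0 := by
      have h2 : Tendsto (fun m => value c (em v.1) (fun j => em v.1 (vr (t m) j)) p) U
          (𝓝 (value c (em v.1) (vr (V v.1)) p)) :=
        value_tendsto c _ _ _ _ (fun j => hV2 v.1 (j / 3) _) p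
      have h3 := hsmall v.1 (fun m => value c (RingHom.id _) (vr (t m)) p)
        (fun m => hval m p hp)
      have h4 : (fun m => em v.1 (value c (RingHom.id (𝓞 K)) (vr (t m)) p)) =
          fun m => value c (em v.1) (fun j => em v.1 (vr (t m) j)) p := by
        funext m
        rw [value_map]
        rfl
      rw [h4] at h3
      exact tendsto_nhds_unique h2 h3
    obtain ⟨e, he⟩ := value_scale c (em v.1) (hfs p hp) (fun k => if k < g then l v.1 k else 1)
      (vr fun k => crd (T v.1 k))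
    have h5 : value c (em v.1) (fun j => (if j / 3 < g then l v.1 (j / 3) else 1) *
        vr (fun k => crd (T v.1 k)) j) p = value c (em v.1) (vr (V v.1)) p := by
      apply value_congr c _ (hfs p hp)
      intro j hj
      have hj3 : j / 3 < g := by omega
      rw [if_pos hj3]
      exact ((hT v.1 (j / 3) hj3).2 _).symm
    rw [h5, h1] at he
    have h6 : value c (em v.1) (vr fun k => crd (T v.1 k)) p = 0 := by
      rcases mul_eq_zero.1 he.symm with h | h
      · exfalso
        rw [Finset.prod_eq_zero_iff] at h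
        obtain ⟨k, hk, hk0⟩ := h
        rw [if_pos (Finset.mem_range.1 hk)] at hk0
        exact pow_ne_zero _ (hT v.1 k (Finset.mem_range.1 hk)).1 hk0
      · exact h
    rw [MvPolynomial.aeval_def]
    rw [eval_toMv c (algebraMap (𝓞 K) K) (algebraMap K (v.1.adicCompletion K)) g (hfs p hp)
      (fun k : Fin g => crd (T v.1 k)) (fun k => crd (T v.1 k)) (fun _ => rfl)]
    exact h6

end Pool.Agent.Y213.HT
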