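import Pool.Agent.Y213.HT.REc
import Pool.Agent.Y213.HT.Cpt

/-! The procedure which looks for rational points and for certificates. -/

set_option autoImplicit false

namespace Pool.Agent.Y213.HT

open WeierstrassCurve Pool.Agent.H901R3.MS Pool.Agent.Y213.R1 Pool.Agent.Y213.BD
open IsDedekindDomain NumberField Pool.Agent.TH954 Pool.Agent.TH942 Pool.Agent.Helper446

/-- integral coordinates of a rational point -/
def HPR {R C : Type} [CommRing R] [Primcodable C] (c : Cod R C) (i : Inp C) : Prop :=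
  ∃ t : List (Tr C), (∀ k < i.2.2.1, tv c t k ≠ 0 ∧
    tv c t k 1 ^ 2 * tv c t k 2 = tv c t k 0 ^ 3 + c.dec i.1.1 * tv c t k 0 * tv c t k 2 ^ 2 +
      c.dec i.1.2 * tv c t k 2 ^ 3) ∧
    ∀ p ∈ i.2.2.2, value c (RingHom.id R) (vr (tv c t)) p = 0

/-- the procedure -/
theorem exists_alg {R C : Type} [CommRing R] [Primcodable C] (c : Cod R C) :
    ∃ A : Inp C →. Bool, Partrec A ∧
      (∀ i, (A i).Dom ↔ HPR c i ∨ ∃ N T, IsCert c i N T) ∧
      ∀ i, ∀ s ∈ A i, (s = true ∧ HPR c i) ∨ (s = false ∧ ∃ N T, IsCert c i N T) := by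
  have h1 : REPred fun x : Inp C × Bool => (x.2 = true ∧ HPR c x.1) ∨
      (x.2 = false ∧ ∃ N T, IsCert c x.1 N T) := by
    refine RE.or (RE.and (RE.eq Computable.snd (Computable.const true)) ?_)
      (RE.and (RE.eq Computable.snd (Computable.const false)) ?_)
    · exact RE.comp re_point Computable.fst
    · exact RE.comp re_cert Computable.fst
  obtain ⟨A, hA, h2, h3⟩ := RE.uniformize (r := fun (i : Inp C) (s : Bool) =>
    (s = true ∧ HPR c i) ∨ (s = false ∧ ∃ N T, IsCert c i N T)) h1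
  refine ⟨A, hA, fun i => ?_, h3⟩
  rw [h2]
  constructor
  · rintro ⟨s, h | h⟩
    · exact Or.inl h.2
    · exact Or.inr h.2
  · rintro (h | h)
    · exact ⟨true, Or.inl ⟨rfl, h⟩⟩
    · exact ⟨false, Or.inr ⟨rfl, h⟩⟩

section K

variable {K C : Type} [Field K] [NumberField K] [Primcodable C] (c : Cod (𝓞 K) C)

/-- the equations have a solution on the power of the curve -/
def HasPt (i : Inp C) : Prop :=
  ∃ t : ℕ → Fin 3 → K, (∀ k < i.2.2.1, OnK (algebraMap (𝓞 K) K (c.dec i.1.1))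
    (algebraMap (𝓞 K) K (c.dec i.1.2)) (t k)) ∧
    ∀ p ∈ i.2.2.2, value c (algebraMap (𝓞 K) K) (vr t) p = 0

open scoped Classical in
/-- admissible inputs -/
def Adm (i : Inp C) : Prop :=
  4 * c.dec i.1.1 ^ 3 + 27 * c.dec i.1.2 ^ 2 ≠ 0 ∧ (∀ p ∈ i.2.2.2, MHL i.2.2.1 p) ∧
  (∀ u ∈ i.2.1, ∃ P : Pt (algebraMap (𝓞 K) K (c.dec i.1.1)) (algebraMap (𝓞 K) K (c.dec i.1.2)),
    IsRep P (vc c u)) ∧
  ∀ P : Pt (algebraMap (𝓞 K) K (c.dec i.1.1)) (algebraMap (𝓞 K) K (c.dec i.1.2)),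
    P ∈ AddSubgroup.closure {Q | ∃ u ∈ i.2.1, IsRep Q (vc c u)}

theorem disc_of {a b : 𝓞 K} (hd : 4 * a ^ 3 + 27 * b ^ 2 ≠ 0) :
    Disc (algebraMap (𝓞 K) K a) (algebraMap (𝓞 K) K b) := by
  have h := (shortInt_sw' a b hd).disc
  exact mul_ne_zero two_ne_zero h

theorem value_list {R L : Type} [CommRing R] [CommRing L] (c : Cod R C) (φ : R →+* L) {g : ℕ}
    {p : Po C} (hp : MHL g p) (t : ℕ → Fin 3 → R) :
    φ (value c (RingHom.id R) (vr t) p) = value c φ (vr fun k j => φ (t k j)) p := by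
  rw [value_map]
  rfl

theorem hasPt_iff {i : Inp C} (hd : 4 * c.dec i.1.1 ^ 3 + 27 * c.dec i.1.2 ^ 2 ≠ 0)
    (hfs : ∀ p ∈ i.2.2.2, MHL i.2.2.1 p) : HasPt c i ↔ HPR c i := by
  have hinj := IsFractionRing.injective (𝓞 K) K
  constructor
  · rintro ⟨t, ht, hv⟩
    have h1 : ∀ k, ∃ (u : Fin 3 → 𝓞 K) (l : K), k < i.2.2.1 → l ≠ 0 ∧ u ≠ 0 ∧
        u 1 ^ 2 * u 2 = u 0 ^ 3 + c.dec i.1.1 * u 0 * u 2 ^ 2 + c.dec i.1.2 * u 2 ^ 3 ∧
        ∀ j, algebraMap (𝓞 K) K (u j) = l * t k j := by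
      intro k
      by_cases hk : k < i.2.2.1
      · obtain ⟨P, x, hx, hP⟩ := t_PTSK K _ _ _ (disc_of hd) (ht k hk)
        obtain ⟨u, hu, -⟩ := hex (R := 𝓞 K) (K := K) (N := 1) (by simp) P
        have hu' := hu
        obtain ⟨y, hy, h⟩ := hu
        refine ⟨u, y / x, fun _ => ⟨div_ne_zero hy hx, hu'.ne hinj, hu'.eqn hinj, fun j => ?_⟩⟩
        rw [h j, hP j]
        field_simp
      · exact ⟨0, 0, fun h => absurd h hk⟩
    choose u l h1 using h1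
    choose cd hcd using fun k => vc_sur c (u k)
    have htv : ∀ k < i.2.2.1, tv c (List.ofFn fun k : Fin i.2.2.1 => cd k) k = u k := by
      intro k hk
      unfold tv
      rw [List.getD_eq_getElem _ _ (by rw [List.length_ofFn]; exact hk), List.getElem_ofFn]
      exact hcd k
    refine ⟨List.ofFn fun k : Fin i.2.2.1 => cd k, fun k hk => ?_, fun p hp => ?_⟩
    · rw [htv k hk]
      exact ⟨(h1 k hk).2.1, (h1 k hk).2.2.1⟩
    · apply hinj
      rw [map_zero, value_list c _ (hfs p hp)]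
      obtain ⟨e, he⟩ := value_scale c (algebraMap (𝓞 K) K) (hfs p hp) l (vr t)
      rw [hv p hp, mul_zero] at he
      rw [← he]
      apply value_congr c _ (hfs p hp)
      intro j hj
      have hj3 : j / 3 < i.2.2.1 := by omega
      show algebraMap (𝓞 K) K (tv c _ (j / 3) _) = _
      rw [htv _ hj3]
      exact (h1 (j / 3) hj3).2.2.2 _
  · rintro ⟨t, ht, hv⟩
    refine ⟨fun k j => algebraMap (𝓞 K) K (tv c t k j), fun k hk => ⟨fun h => ?_, ?_⟩,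
      fun p hp => ?_⟩
    · apply (ht k hk).1
      funext j
      apply hinj
      rw [Pi.zero_apply, map_zero]
      exact congrFun h j
    · have h2 := congrArg (algebraMap (𝓞 K) K) (ht k hk).2
      simp only [map_mul, map_add, map_pow] at h2
      exact h2
    · rw [← value_list c _ (hfs p hp), hv p hp, map_zero]

open scoped Classical in
/-- the equations of the variety -/
noncomputable def Sys (i : Inp C) : Set (MvPolynomial (Fin i.2.2.1 × Fin 3) K) :=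
  {f | ∃ p ∈ i.2.2.2, f = toMv c (algebraMap (𝓞 K) K) i.2.2.1 p}

open scoped Classical in
theorem alg_main : ∃ A : Inp C →. Bool, Partrec A ∧
    (∀ i, Adm c i → ∀ s ∈ A i, (s = true ↔ HasPt c i)) ∧
    (∀ i, Adm c i → HasPt c i → (A i).Dom) ∧
    ∀ i, Adm c i → (¬ ∃ x ∈ adelicClosure
      (E := sw ((c.dec i.1.1 : 𝓞 K) : K) ((c.dec i.1.2 : 𝓞 K) : K)) (n := i.2.2.1) ∅ Set.univ,
        ∀ v, OnX (Sys c i) (fun k => crd (x v k))) → (A i).Dom := by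
  have hinj := IsFractionRing.injective (𝓞 K) K
  obtain ⟨A, hA, hdom, hval⟩ := exists_alg c
  refine ⟨A, hA, ?_, ?_, ?_⟩
  · rintro i ⟨hd, hfs, hg1, hg2⟩ s hs
    rw [hasPt_iff c hd hfs]
    rcases hval i s hs with ⟨h1, h2⟩ | ⟨h1, N, T, hT⟩
    · exact ⟨fun _ => h2, fun _ => h1⟩
    · rw [h1]
      refine ⟨fun h => absurd h (by decide), fun ⟨t, ht, hv⟩ => ?_⟩
      exfalso
      have h3 : ∀ k, ∃ P : Pt (algebraMap (𝓞 K) K (c.dec i.1.1))
          (algebraMap (𝓞 K) K (c.dec i.1.2)), k < i.2.2.1 → IsRep P (tv c t k) := by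
        intro k
        by_cases hk : k < i.2.2.1
        · obtain ⟨P, hP⟩ := isRep_of_eqn hinj (disc_of hd) (ht k hk).1 (ht k hk).2
          exact ⟨P, fun _ => hP⟩
        · exact ⟨0, fun h => absurd h hk⟩
      choose Q hQ using h3
      exact sound c hinj (fun N hN P => hex (Nat.cast_ne_zero.2 hN.ne') P) (disc_of hd) i rfl rfl
        hfs hg2 hT Q (tv c t) hQ hv
  · rintro i ⟨hd, hfs, -, -⟩ h
    exact (hdom i).2 (Or.inl ((hasPt_iff c hd hfs).1 h))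
  · rintro i ⟨hd, hfs, hg1, hg2⟩ h
    obtain ⟨N, hN, hobs⟩ := bridge c hd i.2.2.1 i.2.2.2 hfs (Sys c i) rfl h
    obtain ⟨T, hT⟩ := complete c hinj i rfl rfl hg1 hN (fun P => hex (Nat.cast_ne_zero.2 hN.ne') P)
      (finite_quot hd hN hinj _) hobs
    exact (hdom i).2 (Or.inr ⟨N, T, hT⟩)

open scoped Classical in
/-- the case of groups of rank at most one -/
theorem rank_one_dom {i : Inp C} (hi : Adm c i)
    (hr : Module.rank ℤ (SPt ((c.dec i.1.1 : 𝓞 K) : K) ((c.dec i.1.2 : 𝓞 K) : K)) ≤ 1)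
    (hno : ¬ HasPt c i) : ¬ ∃ x ∈ adelicClosure
      (E := sw ((c.dec i.1.1 : 𝓞 K) : K) ((c.dec i.1.2 : 𝓞 K) : K)) (n := i.2.2.1) ∅ Set.univ,
        ∀ v, OnX (Sys c i) (fun k => crd (x v k)) := by
  obtain ⟨hd, hfs, -, -⟩ := hi
  have hE := shortInt_sw' _ _ hd
  have hell : (sw ((c.dec i.1.1 : 𝓞 K) : K) ((c.dec i.1.2 : 𝓞 K) : K)).IsElliptic := sw_ell hE.disc
  have hr' : Module.rank ℤ (⊤ : AddSubgroup
      (SPt ((c.dec i.1.1 : 𝓞 K) : K) ((c.dec i.1.2 : 𝓞 K) : K))) ≤ 1 := by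
    have e : (⊤ : AddSubgroup (SPt ((c.dec i.1.1 : 𝓞 K) : K) ((c.dec i.1.2 : 𝓞 K) : K))) ≃+
      SPt ((c.dec i.1.1 : 𝓞 K) : K) ((c.dec i.1.2 : 𝓞 K) : K) := AddSubgroup.topEquiv
    rw [e.toIntLinearEquiv.rank_eq]
    exact hr
  have h1 := rank_one_main (sw ((c.dec i.1.1 : 𝓞 K) : K) ((c.dec i.1.2 : 𝓞 K) : K)) rfl rfl rfl
    hE.ia hE.ib ⊤ hr' i.2.2.1 (Sys c i) (by
      rintro f ⟨p, hp, rfl⟩
      exact multiHom_toMv c _ _ (hfs p hp)) ∅ Set.finite_empty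
  rintro ⟨x, hx, hxS⟩
  have h2 : x ∈ adelicClosure
      (E := sw ((c.dec i.1.1 : 𝓞 K) : K) ((c.dec i.1.2 : 𝓞 K) : K)) (∅ : Set
        (HeightOneSpectrum (𝓞 K))) {y | ∀ k, y k ∈ (⊤ : AddSubgroup (SPt
          ((c.dec i.1.1 : 𝓞 K) : K) ((c.dec i.1.2 : 𝓞 K) : K)))} := by
    intro T ε hε
    obtain ⟨y, -, hy⟩ := hx T ε hε
    exact ⟨y, fun _ => AddSubgroup.mem_top _, hy⟩
  have h3 := h1.subset ⟨h2, hxS⟩
  obtain ⟨y, ⟨-, hy⟩, -⟩ := h3 ∅ 1 one_pos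
  apply hno
  let t : ℕ → Fin 3 → K := fun k => if h : k < i.2.2.1 then crd (y ⟨k, h⟩) else 0
  have ht : ∀ k : Fin i.2.2.1, t k = crd (y k) := by
    intro k
    simp only [t, k.2, dif_pos]
  refine ⟨t, fun k hk => ?_, fun p hp => ?_⟩
  · have e : t k = crd (y ⟨k, hk⟩) := ht ⟨k, hk⟩
    rw [e]
    have e2 : crd (y ⟨k, hk⟩) = rep (a := algebraMap (𝓞 K) K (c.dec i.1.1))
      (b := algebraMap (𝓞 K) K (c.dec i.1.2)) (y ⟨k, hk⟩) := crd_eq_rep _
    rw [e2]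
    exact ⟨rep_ne_zero _, rep_eqn _⟩
  · have h4 := hy _ ⟨p, hp, rfl⟩
    rw [MvPolynomial.aeval_def, eval_toMv c (algebraMap (𝓞 K) K) (algebraMap K K) i.2.2.1
      (hfs p hp) (fun k => crd (y k)) t ht] at h4
    exact h4

end K

end Pool.Agent.Y213.HT
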