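import Pool.Agent.Y213.HT.Val
import Pool.Agent.H901R3.MS.P_PTSK

/-! Certificates for the absence of rational points: finite sets of tuples of points which are
closed under the moves by the generators modulo a subgroup of finite index. -/

set_option autoImplicit false

namespace Pool.Agent.Y213.HT

open WeierstrassCurve Pool.Agent.H901R3.MS Pool.Agent.Y213.R1 Pool.Agent.Y213.BD

/-- the input: the coefficients of the curve, points, the number of factors, the equations -/
abbrev Inp (C : Type) : Type := (C × C) × List (Tr C) × ℕ × List (Po C)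

/-- the negative of a vector -/
def ngv {R : Type} [CommRing R] (u : Fin 3 → R) : Fin 3 → R := ![u 0, -u 1, u 2]

/-- the difference is near the origin -/
def NearD {R : Type} [CommRing R] (N : ℕ) (D : Fin 3 → R) : Prop :=
  ∃ w : Fin 3 → R, w ≠ 0 ∧ (∀ i j, D i * w j = D j * w i) ∧ Prm N w ∧ (N : R) ∣ w 0 ∧ (N : R) ∣ w 2

/-- `u + q - u'` is near the origin -/
def StepR {R : Type} [CommRing R] (a b : R) (N : ℕ) (u q u' : Fin 3 → R) : Prop :=
  ∃ D1 D2 : Fin 3 → R, SumR a b u q D1 ∧ SumR a b D1 (ngv u') D2 ∧ NearD N D2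

/-- a point of the curve, in coordinates which are primitive modulo `N` -/
def OkP {R : Type} [CommRing R] (a b : R) (N : ℕ) (u : Fin 3 → R) : Prop :=
  u ≠ 0 ∧ u 1 ^ 2 * u 2 = u 0 ^ 3 + a * u 0 * u 2 ^ 2 + b * u 2 ^ 3 ∧ Prm N u

section

variable {R C : Type} [CommRing R] [Primcodable C] (c : Cod R C)

/-- the vectors of a list of triples -/
noncomputable def tv (t : List (Tr C)) (k : ℕ) : Fin 3 → R :=
  vc c (t.getD k ((c.sur 0).choose, (c.sur 0).choose, (c.sur 0).choose))

theorem co_tv (t : List (Tr C)) : (fun j => c.dec (co c t j)) = vr (tv c t) := by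
  funext j
  exact co_dec c t j

/-- the move by `q` in the factor `k0` -/
def Move (i : Inp C) (N : ℕ) (t t' : List (Tr C)) (k0 : ℕ) (q : Fin 3 → R) : Prop :=
  ∀ k < i.2.2.1, (k = k0 → StepR (c.dec i.1.1) (c.dec i.1.2) N (tv c t k) q (tv c t' k)) ∧
    (k ≠ k0 → StepR (c.dec i.1.1) (c.dec i.1.2) N (tv c t k) ![0, 1, 0] (tv c t' k))

/-- the certificate -/
def IsCert (i : Inp C) (N : ℕ) (T : List (List (Tr C))) : Prop :=
  0 < N ∧ T ≠ [] ∧
  (∀ t ∈ T, (∀ k < i.2.2.1, OkP (c.dec i.1.1) (c.dec i.1.2) N (tv c t k)) ∧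
    ∃ p ∈ i.2.2.2, ¬ (N : R) ∣ value c (RingHom.id R) (vr (tv c t)) p) ∧
  (∀ t ∈ T, ∀ k0 < i.2.2.1, ∀ P ∈ i.2.1, (∃ t' ∈ T, Move c i N t t' k0 (vc c P)) ∧
    ∃ t' ∈ T, Move c i N t t' k0 (ngv (vc c P)))

end

section sound

variable {R C K : Type} [CommRing R] [Primcodable C] (c : Cod R C) [Field K] [DecidableEq K]
  [Algebra R K] (hinj : Function.Injective (algebraMap R K)) {a b : R}

include hinj in
theorem step_iff {N : ℕ} {P G P' : Pt (algebraMap R K a) (algebraMap R K b)}
    {u q u' : Fin 3 → R} (hu : IsRep P u) (hq : IsRep G q) (hu' : IsRep P' u') :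
    StepR a b N u q u' ↔ NearP N (P + G + -P') := by
  constructor
  · rintro ⟨D1, D2, h1, h2, h3⟩
    have e1 := sumR_rep hinj hu hq h1
    have e2 := sumR_rep hinj e1 (isRep_neg hu') h2
    exact (nearP_iff hinj e2).2 h3
  · intro h
    obtain ⟨D1, h1⟩ := exists_sumR a b u q
    obtain ⟨D2, h2⟩ := exists_sumR a b D1 (ngv u')
    have e1 := sumR_rep hinj hu hq h1
    have e2 := sumR_rep hinj e1 (isRep_neg hu') h2
    exact ⟨D1, D2, h1, h2, (nearP_iff hinj e2).1 h⟩

include hinj in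
theorem isRep_of_eqn (hd : Disc (algebraMap R K a) (algebraMap R K b)) {u : Fin 3 → R}
    (h0 : u ≠ 0) (he : u 1 ^ 2 * u 2 = u 0 ^ 3 + a * u 0 * u 2 ^ 2 + b * u 2 ^ 3) :
    ∃ P : Pt (algebraMap R K a) (algebraMap R K b), IsRep P u := by
  have hV : OnK (algebraMap R K a) (algebraMap R K b) (fun i => algebraMap R K (u i)) := by
    refine ⟨fun h => h0 ?_, ?_⟩
    · funext i
      apply hinj
      rw [Pi.zero_apply, map_zero]
      exact congrFun h i
    · have h1 := congrArg (algebraMap R K) he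
      simp only [map_add, map_mul, map_pow] at h1
      exact h1
  obtain ⟨P, k, hk, h⟩ := t_PTSK K _ _ _ hd hV
  exact ⟨P, k, hk, h⟩

include hinj in
/-- exact vanishing does not depend on the coordinates -/
theorem value_zero_of_rep {g : ℕ} {p : Po C} (hp : MHL g p)
    {Q : ℕ → Pt (algebraMap R K a) (algebraMap R K b)} {s s' : ℕ → Fin 3 → R}
    (hs : ∀ k < g, IsRep (Q k) (s k)) (hs' : ∀ k < g, IsRep (Q k) (s' k))
    (h0 : value c (RingHom.id R) (vr s) p = 0) : value c (RingHom.id R) (vr s') p = 0 := by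
  have hk : ∀ k, ∃ l : K, k < g → ∀ j, algebraMap R K (s' k j) = l * algebraMap R K (s k j) := by
    intro k
    by_cases hk : k < g
    · obtain ⟨x, hx, h1⟩ := hs k hk
      obtain ⟨y, hy, h2⟩ := hs' k hk
      refine ⟨y / x, fun _ j => ?_⟩
      rw [h1, h2]
      field_simp
    · exact ⟨0, fun h => absurd h hk⟩
  choose l hl using hk
  apply hinj
  rw [map_zero, value_map]
  have h1 := congrArg (algebraMap R K) h0
  rw [map_zero, value_map] at h1
  obtain ⟨e, he⟩ := value_scale c ((algebraMap R K).comp (RingHom.id R)) hp l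
    (fun j => algebraMap R K (vr s j))
  rw [h1, mul_zero] at he
  rw [← he]
  apply value_congr c _ hp
  intro j hj
  exact hl (j / 3) (by omega) _

include hinj in
theorem sound (hex : ∀ (N : ℕ), 0 < N → ∀ P : Pt (algebraMap R K a) (algebraMap R K b),
      ∃ u : Fin 3 → R, IsRep P u ∧ Prm N u)
    (hd : Disc (algebraMap R K a) (algebraMap R K b)) (i : Inp C) (ha : c.dec i.1.1 = a)
    (hb : c.dec i.1.2 = b) (hfs : ∀ p ∈ i.2.2.2, MHL i.2.2.1 p)
    (hgen : ∀ P : Pt (algebraMap R K a) (algebraMap R K b),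
      P ∈ AddSubgroup.closure {Q | ∃ u ∈ i.2.1, IsRep Q (vc c u)})
    {N : ℕ} {T : List (List (Tr C))} (hT : IsCert c i N T)
    (Q : ℕ → Pt (algebraMap R K a) (algebraMap R K b)) (s : ℕ → Fin 3 → R)
    (hs : ∀ k < i.2.2.1, IsRep (Q k) (s k))
    (h0 : ∀ p ∈ i.2.2.2, value c (RingHom.id R) (vr s) p = 0) : False := by
  obtain ⟨hN, hT0, hT1, hT2⟩ := hT
  rw [ha, hb] at hT1
  set g := i.2.2.1 with hg
  set H := nearG hinj (fun P => hex N hN P) with hH
  have hmem : ∀ P : Pt (algebraMap R K a) (algebraMap R K b), P ∈ H ↔ NearP N P := fun P => Iff.rfl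
  -- the points of the tuples
  have hAt : ∀ t ∈ T, ∃ P : ℕ → Pt (algebraMap R K a) (algebraMap R K b),
      ∀ k < g, IsRep (P k) (tv c t k) := by
    intro t ht
    have h1 : ∀ k, ∃ P : Pt (algebraMap R K a) (algebraMap R K b), k < g →
        IsRep P (tv c t k) := by
      intro k
      by_cases hk : k < g
      · obtain ⟨h1, h2, -⟩ := (hT1 t ht).1 k hk
        obtain ⟨P, hP⟩ := isRep_of_eqn hinj hd h1 h2
        exact ⟨P, fun _ => hP⟩
      · exact ⟨0, fun h => absurd h hk⟩
    choose P hP using h1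
    exact ⟨P, fun k hk => hP k hk⟩
  let Reach : (ℕ → Pt (algebraMap R K a) (algebraMap R K b)) → Prop := fun Δ =>
    ∀ t ∈ T, ∀ P : ℕ → Pt (algebraMap R K a) (algebraMap R K b),
      (∀ k < g, IsRep (P k) (tv c t k)) → ∃ t' ∈ T,
        ∃ P' : ℕ → Pt (algebraMap R K a) (algebraMap R K b),
          (∀ k < g, IsRep (P' k) (tv c t' k)) ∧ ∀ k < g, P k + Δ k + -P' k ∈ H
  have r0 : Reach 0 := by
    intro t ht P hP
    refine ⟨t, ht, P, hP, fun k _ => ?_⟩
    rw [Pi.zero_apply, add_zero, add_neg_cancel]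
    exact H.zero_mem
  have radd : ∀ Δ Δ', Reach Δ → Reach Δ' → Reach (Δ + Δ') := by
    intro Δ Δ' h h' t ht P hP
    obtain ⟨t1, ht1, P1, hP1, e1⟩ := h t ht P hP
    obtain ⟨t2, ht2, P2, hP2, e2⟩ := h' t1 ht1 P1 hP1
    refine ⟨t2, ht2, P2, hP2, fun k hk => ?_⟩
    have h3 := H.add_mem (e1 k hk) (e2 k hk)
    have h4 : P k + Δ k + -P1 k + (P1 k + Δ' k + -P2 k) = P k + (Δ + Δ') k + -P2 k := by
      rw [Pi.add_apply]
      abel
    rwa [h4] at h3
  have rcong : ∀ Δ Δ', (∀ k < g, Δ k = Δ' k) → Reach Δ → Reach Δ' := by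
    intro Δ Δ' h h1 t ht P hP
    obtain ⟨t1, ht1, P1, hP1, e1⟩ := h1 t ht P hP
    exact ⟨t1, ht1, P1, hP1, fun k hk => by rw [← h k hk]; exact e1 k hk⟩
  have rmove : ∀ (k0 : ℕ) (G : Pt (algebraMap R K a) (algebraMap R K b)) (q : Fin 3 → R),
      IsRep G q → (∀ t ∈ T, ∃ t' ∈ T, Move c i N t t' k0 q) →
      Reach (fun k => if k = k0 then G else 0) := by
    intro k0 G q hG hm t ht P hP
    obtain ⟨t', ht', hmv⟩ := hm t ht
    obtain ⟨P', hP'⟩ := hAt t' ht'
    refine ⟨t', ht', P', hP', fun k hk => ?_⟩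
    obtain ⟨m1, m2⟩ := hmv k hk
    rw [ha, hb] at m1 m2
    rw [hmem]
    by_cases hkk : k = k0
    · simp only [hkk, if_true]
      rw [← hkk]
      exact (step_iff hinj (hP k hk) hG (hP' k hk)).1 (m1 hkk)
    · simp only [hkk, if_false]
      exact (step_iff hinj (hP k hk) isRep_zero (hP' k hk)).1 (m2 hkk)
  -- arbitrary displacements
  have rsingle : ∀ k0 < g, ∀ G : Pt (algebraMap R K a) (algebraMap R K b),
      Reach (fun k => if k = k0 then G else 0) := by
    intro k0 hk0 G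
    have h1 := hgen G
    have key : Reach (fun k => if k = k0 then G else 0) ∧
        Reach (fun k => if k = k0 then -G else 0) := by
      induction h1 using AddSubgroup.closure_induction with
      | mem x hx =>
        obtain ⟨u, hu, hxu⟩ := hx
        refine ⟨rmove k0 x _ hxu fun t ht => ((hT2 t ht k0 hk0 u hu).1), ?_⟩
        exact rmove k0 (-x) _ (isRep_neg hxu) fun t ht => ((hT2 t ht k0 hk0 u hu).2)
      | zero =>
        have h2 : Reach (fun k => if k = k0 then
            (0 : Pt (algebraMap R K a) (algebraMap R K b)) else 0) :=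
          rcong 0 _ (fun k _ => by simp) r0
        refine ⟨h2, ?_⟩
        rw [neg_zero]
        exact h2
      | add x y _ _ hx hy =>
        refine ⟨rcong _ _ (fun k _ => ?_) (radd _ _ hx.1 hy.1),
          rcong _ _ (fun k _ => ?_) (radd _ _ hx.2 hy.2)⟩
        · by_cases h : k = k0 <;> simp [h]
        · by_cases h : k = k0
          · simp only [Pi.add_apply, h, if_true]
            abel
          · simp [h]
      | neg x _ hx =>
        refine ⟨hx.2, ?_⟩
        rw [neg_neg]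
        exact hx.1
    exact key.1
  have rall : ∀ (Δ : ℕ → Pt (algebraMap R K a) (algebraMap R K b)) (n : ℕ), n ≤ g →
      Reach (fun k => if k < n then Δ k else 0) := by
    intro Δ n
    induction n with
    | zero =>
      intro _
      exact rcong 0 _ (fun k _ => by simp) r0
    | succ n ih =>
      intro hn
      refine rcong _ _ (fun k _ => ?_) (radd _ _ (ih (by omega)) (rsingle n (by omega) (Δ n)))
      rw [Pi.add_apply]
      by_cases h1 : k < n
      · simp only [h1, if_true, (by omega : k < n + 1)]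
        rw [if_neg (by omega), add_zero]
      · by_cases h2 : k = n
        · subst h2
          simp
        · rw [if_neg h1, if_neg h2, if_neg (by omega), add_zero]
  obtain ⟨t0, ht0⟩ := List.exists_mem_of_ne_nil T hT0
  obtain ⟨P0, hP0⟩ := hAt t0 ht0
  obtain ⟨t, ht, P, hP, hPH⟩ := rall (fun k => Q k - P0 k) g le_rfl t0 ht0 P0 hP0
  obtain ⟨hok, p, hp, hnd⟩ := hT1 t ht
  apply hnd
  -- primitive coordinates of the rational point
  have hs' : ∀ k, ∃ s' : Fin 3 → R, IsRep (Q k) s' ∧ Prm N s' := fun k => hex N hN (Q k)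
  choose s' hs'1 hs'2 using hs'
  refine transfer_val c (hfs p hp) (s := s') (fun k _ => hs'2 k) (fun k hk => ?_) ?_
  · have h1 := hPH k hk
    have h2 : P k = Q k + -(P0 k + (if k < g then Q k - P0 k else 0) + -P k) := by
      rw [if_pos hk]
      abel
    have h3 : NearP N (-(P0 k + (if k < g then Q k - P0 k else 0) + -P k)) :=
      (hmem _).1 (H.neg_mem h1)
    obtain ⟨w, hw, pw, w0, w2⟩ := h3
    have h4 : IsRep (Q k + -(P0 k + (if k < g then Q k - P0 k else 0) + -P k)) (tv c t k) := by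
      rw [← h2]
      exact hP k hk
    exact congR_add hinj (hs'1 k) hw h4 (hs'2 k) pw w0 w2
  · rw [value_zero_of_rep c hinj (hfs p hp) hs (fun k _ => hs'1 k) (h0 p hp)]
    exact dvd_zero _

include hinj in
theorem complete (i : Inp C) (ha : c.dec i.1.1 = a) (hb : c.dec i.1.2 = b)
    (hgens : ∀ u ∈ i.2.1, ∃ P : Pt (algebraMap R K a) (algebraMap R K b), IsRep P (vc c u))
    {N : ℕ} (hN : 0 < N)
    (hex : ∀ P : Pt (algebraMap R K a) (algebraMap R K b), ∃ u : Fin 3 → R, IsRep P u ∧ Prm N u)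
    (hfin : Finite (Pt (algebraMap R K a) (algebraMap R K b) ⧸ nearG hinj hex))
    (hobs : ∀ (P : ℕ → Pt (algebraMap R K a) (algebraMap R K b)) (t : ℕ → Fin 3 → R),
      (∀ k < i.2.2.1, IsRep (P k) (t k) ∧ Prm N (t k)) →
      ∃ p ∈ i.2.2.2, ¬ (N : R) ∣ value c (RingHom.id R) (vr t) p) :
    ∃ T, IsCert c i N T := by
  classical
  set g := i.2.2.1 with hg
  set H := nearG hinj hex with hH
  have hmem : ∀ P : Pt (algebraMap R K a) (algebraMap R K b), P ∈ H ↔ NearP N P := fun P => Iff.rfl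
  have hex' := hex
  choose rp hrp1 hrp2 using hex'
  choose cd hcd using fun P : Pt (algebraMap R K a) (algebraMap R K b) => vc_sur c (rp P)
  have := Fintype.ofFinite (Pt (algebraMap R K a) (algebraMap R K b) ⧸ H)
  let tt : (Fin g → Pt (algebraMap R K a) (algebraMap R K b) ⧸ H) → List (Tr C) :=
    fun κ => List.ofFn fun k => cd (κ k).out
  have htt : ∀ κ (k : ℕ) (hk : k < g), tv c (tt κ) k = rp (κ ⟨k, hk⟩).out := by
    intro κ k hk
    unfold tv
    have h1 : (tt κ).getD k ((c.sur 0).choose, (c.sur 0).choose, (c.sur 0).choose) =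
        cd (κ ⟨k, hk⟩).out := by
      simp only [tt]
      rw [List.getD_eq_getElem _ _ (by rw [List.length_ofFn]; exact hk), List.getElem_ofFn]
    rw [h1]
    exact hcd _
  have hcong : ∀ (x y : Pt (algebraMap R K a) (algebraMap R K b)),
      (x : Pt (algebraMap R K a) (algebraMap R K b) ⧸ H) = y → NearP N (x + -y) := by
    intro x y h
    rw [← hmem]
    rw [eq_comm, QuotientAddGroup.eq] at h
    rwa [add_comm]
  have hmove : ∀ (κ : Fin g → Pt (algebraMap R K a) (algebraMap R K b) ⧸ H) (k0 : ℕ) (hk0 : k0 < g)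
      (G : Pt (algebraMap R K a) (algebraMap R K b)) (q : Fin 3 → R), IsRep G q →
      Move c i N (tt κ) (tt (Function.update κ ⟨k0, hk0⟩ (κ ⟨k0, hk0⟩ + (G : _ ⧸ H)))) k0 q := by
    intro κ k0 hk0 G q hG k hk
    rw [ha, hb, htt _ k hk, htt _ k hk]
    constructor
    · intro hkk
      subst hkk
      rw [Function.update_self]
      rw [step_iff hinj (hrp1 _) hG (hrp1 _)]
      apply hcong
      rw [QuotientAddGroup.mk_add, QuotientAddGroup.out_eq', QuotientAddGroup.out_eq']
    · intro hkk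
      rw [Function.update_of_ne (fun h => hkk (congrArg Fin.val h))]
      rw [step_iff hinj (hrp1 _) isRep_zero (hrp1 _)]
      apply hcong
      rw [add_zero]
  refine ⟨(Finset.univ : Finset (Fin g → Pt (algebraMap R K a) (algebraMap R K b) ⧸ H)).toList.map
    tt, hN, ?_, ?_, ?_⟩
  · intro h
    have h1 : tt (fun _ => 0) ∈ (Finset.univ : Finset (Fin g →
        Pt (algebraMap R K a) (algebraMap R K b) ⧸ H)).toList.map tt :=
      List.mem_map.2 ⟨_, Finset.mem_toList.2 (Finset.mem_univ _), rfl⟩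
    rw [h] at h1
    simp at h1
  · intro t ht
    obtain ⟨κ, -, rfl⟩ := List.mem_map.1 ht
    constructor
    · intro k hk
      rw [ha, hb, htt κ k hk]
      exact ⟨(hrp1 _).ne hinj, (hrp1 _).eqn hinj, hrp2 _⟩
    · refine hobs (fun k => if h : k < g then (κ ⟨k, h⟩).out else 0) _ fun k hk => ?_
      rw [htt κ k hk]
      simp only [hk, dif_pos]
      exact ⟨hrp1 _, hrp2 _⟩
  · intro t ht k0 hk0 P hP
    obtain ⟨κ, -, rfl⟩ := List.mem_map.1 ht
    obtain ⟨G, hG⟩ := hgens P hP
    exact ⟨⟨_, List.mem_map.2 ⟨_, Finset.mem_toList.2 (Finset.mem_univ _), rfl⟩,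
      hmove κ k0 hk0 G _ hG⟩, ⟨_, List.mem_map.2 ⟨_, Finset.mem_toList.2 (Finset.mem_univ _), rfl⟩,
      hmove κ k0 hk0 (-G) _ (isRep_neg hG)⟩⟩

end sound

end Pool.Agent.Y213.HT
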