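import Pool.Agent.Y213.HT.IntP
import Pool.Agent.Helper446.RE

/-! Rings with a coding of the elements for which the operations are computable. -/

set_option autoImplicit false

namespace Pool.Agent.Y213.HT

open Pool.Agent.Helper446

/-- a coding of the elements of a ring -/
structure Cod (R C : Type) [CommRing R] [Primcodable C] where
  dec : C → R
  sur : Function.Surjective dec
  add : C → C → C
  addc : Computable₂ add
  dec_add : ∀ x y, dec (add x y) = dec x + dec y
  mul : C → C → C
  mulc : Computable₂ mul
  dec_mul : ∀ x y, dec (mul x y) = dec x * dec y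
  redvd : REPred fun x : ℕ × C => (x.1 : R) ∣ dec x.2
  rendvd : REPred fun x : ℕ × C => ¬ (x.1 : R) ∣ dec x.2

variable {R C : Type} [CommRing R] [Primcodable C] (c : Cod R C)

/-- functions with values in the ring which are computable in terms of the codes -/
def RC {α : Type} [Primcodable α] (F : α → R) : Prop := ∃ f : α → C, Computable f ∧ ∀ a, c.dec (f a) = F a

namespace RC

variable {c} {α β : Type} [Primcodable α] [Primcodable β]

theorem of_eq {F G : α → R} (h : RC c F) (e : ∀ a, F a = G a) : RC c G := by
  obtain ⟨f, hf, h⟩ := h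
  exact ⟨f, hf, fun a => (h a).trans (e a)⟩

theorem const (r : R) : RC c fun _ : α => r := by
  obtain ⟨x, hx⟩ := c.sur r
  exact ⟨fun _ => x, Computable.const x, fun _ => hx⟩

theorem dec {f : α → C} (hf : Computable f) : RC c fun a => c.dec (f a) := ⟨f, hf, fun _ => rfl⟩

theorem add {F G : α → R} (hF : RC c F) (hG : RC c G) : RC c fun a => F a + G a := by
  obtain ⟨f, hf, h⟩ := hF
  obtain ⟨g, hg, h'⟩ := hG
  exact ⟨fun a => c.add (f a) (g a), c.addc.comp hf hg, fun a => by rw [c.dec_add, h, h']⟩

theorem mul {F G : α → R} (hF : RC c F) (hG : RC c G) : RC c fun a => F a * G a := by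
  obtain ⟨f, hf, h⟩ := hF
  obtain ⟨g, hg, h'⟩ := hG
  exact ⟨fun a => c.mul (f a) (g a), c.mulc.comp hf hg, fun a => by rw [c.dec_mul, h, h']⟩

theorem neg {F : α → R} (hF : RC c F) : RC c fun a => - F a :=
  ((const (-1)).mul hF).of_eq fun a => by ring

theorem sub {F G : α → R} (hF : RC c F) (hG : RC c G) : RC c fun a => F a - G a :=
  (hF.add hG.neg).of_eq fun a => by ring

theorem comp {F : β → R} (hF : RC c F) {g : α → β} (hg : Computable g) : RC c fun a => F (g a) := by
  obtain ⟨f, hf, h⟩ := hF
  exact ⟨fun a => f (g a), hf.comp hg, fun a => h _⟩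

theorem ev {σ : Type} {v : σ → α → R} (hv : ∀ i, RC c (v i)) (F : MvPolynomial σ R) :
    RC c fun a => MvPolynomial.eval (fun i => v i a) F := by
  induction F using MvPolynomial.induction_on with
  | C r => exact (const r).of_eq fun a => by rw [MvPolynomial.eval_C]
  | add p q hp hq => exact (hp.add hq).of_eq fun a => by rw [map_add]
  | mul_X p i hp => exact (hp.mul (hv i)).of_eq fun a => by rw [map_mul, MvPolynomial.eval_X]

theorem re_dvd {F : α → R} (hF : RC c F) {N : α → ℕ} (hN : Computable N) :
    REPred fun a => (N a : R) ∣ F a := by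
  obtain ⟨f, hf, h⟩ := hF
  refine (RE.comp c.redvd (hN.pair hf)).of_eq fun a => ?_
  simp only [h]

theorem re_ndvd {F : α → R} (hF : RC c F) {N : α → ℕ} (hN : Computable N) :
    REPred fun a => ¬ (N a : R) ∣ F a := by
  obtain ⟨f, hf, h⟩ := hF
  refine (RE.comp c.rendvd (hN.pair hf)).of_eq fun a => ?_
  simp only [h]

theorem re_zero {F : α → R} (hF : RC c F) : REPred fun a => F a = 0 :=
  (hF.re_dvd (Computable.const 0)).of_eq fun a => by rw [Nat.cast_zero, zero_dvd_iff]

theorem re_nz {F : α → R} (hF : RC c F) : REPred fun a => F a ≠ 0 :=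
  (hF.re_ndvd (Computable.const 0)).of_eq fun a => by rw [Nat.cast_zero, zero_dvd_iff]

theorem re_eq {F G : α → R} (hF : RC c F) (hG : RC c G) : REPred fun a => F a = G a :=
  (hF.sub hG).re_zero.of_eq fun a => sub_eq_zero

theorem re_ne {F G : α → R} (hF : RC c F) (hG : RC c G) : REPred fun a => F a ≠ G a :=
  (hF.sub hG).re_nz.of_eq fun a => sub_ne_zero

/-- existential quantification over the ring -/
theorem ex {p : α → R → Prop} (hp : REPred fun x : α × C => p x.1 (c.dec x.2)) :
    REPred fun a => ∃ r, p a r :=
  (RE.ex (p := fun a x => p a (c.dec x)) hp).of_eq fun a => by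
    constructor
    · rintro ⟨x, hx⟩
      exact ⟨_, hx⟩
    · rintro ⟨r, hr⟩
      obtain ⟨x, rfl⟩ := c.sur r
      exact ⟨x, hr⟩

end RC

/-- triples of codes -/
abbrev Tr (C : Type) : Type := C × C × C

/-- the vector of a triple of codes -/
def vc (u : Tr C) : Fin 3 → R := ![c.dec u.1, c.dec u.2.1, c.dec u.2.2]

theorem vc_sur (v : Fin 3 → R) : ∃ u : Tr C, vc c u = v := by
  obtain ⟨x, hx⟩ := c.sur (v 0)
  obtain ⟨y, hy⟩ := c.sur (v 1)
  obtain ⟨z, hz⟩ := c.sur (v 2)
  refine ⟨(x, y, z), ?_⟩
  funext i
  fin_cases i
  · exact hx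
  · exact hy
  · exact hz

theorem rc_vc {α : Type} [Primcodable α] {f : α → Tr C} (hf : Computable f) (i : Fin 3) :
    RC c fun a => vc c (f a) i := by
  fin_cases i
  · exact RC.dec (Computable.fst.comp hf)
  · exact RC.dec (Computable.fst.comp (Computable.snd.comp hf))
  · exact RC.dec (Computable.snd.comp (Computable.snd.comp hf))

/-- the code of the `j`-th entry of a list of triples -/
noncomputable def co (t : List (Tr C)) (j : ℕ) : C :=
  (bif decide (j % 3 = 0) then ((t[j / 3]?).map Prod.fst)
    else bif decide (j % 3 = 1) then ((t[j / 3]?).map (fun u => u.2.1))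
    else ((t[j / 3]?).map (fun u => u.2.2))).getD ((c.sur 0).choose)

theorem co_dec (t : List (Tr C)) (j : ℕ) :
    c.dec (co c t j) = (vc c (t.getD (j / 3) ((c.sur 0).choose, (c.sur 0).choose, (c.sur 0).choose)))
      ⟨j % 3, Nat.mod_lt _ (by norm_num)⟩ := by
  unfold co
  have h3 : j % 3 = 0 ∨ j % 3 = 1 ∨ j % 3 = 2 := by omega
  rw [List.getD_eq_getElem?_getD]
  rcases h : t[j / 3]? with _ | u
  · rcases h3 with h0 | h0 | h0 <;> simp [h0, vc]
  · rcases h3 with h0 | h0 | h0 <;> simp [h0, vc]

theorem co_comp : Computable₂ (co c) := by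
  unfold co
  have h1 : Computable fun x : List (Tr C) × ℕ => (x.1)[x.2 / 3]? :=
    Computable.list_getElem?.comp Computable.fst
      ((Primrec.nat_div.to_comp).comp Computable.snd (Computable.const 3))
  have h2 : Computable fun x : List (Tr C) × ℕ => x.2 % 3 :=
    (Primrec.nat_mod.to_comp).comp Computable.snd (Computable.const 3)
  have h0 : Computable fun x : List (Tr C) × ℕ => decide (x.2 % 3 = 0) :=
    (Primrec.eq (α := ℕ)).decide.to_comp.comp h2 (Computable.const 0)
  have h01 : Computable fun x : List (Tr C) × ℕ => decide (x.2 % 3 = 1) :=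
    (Primrec.eq (α := ℕ)).decide.to_comp.comp h2 (Computable.const 1)
  refine (Primrec.option_getD.to_comp).comp ?_ (Computable.const _)
  refine Computable.cond h0 ?_ (Computable.cond h01 ?_ ?_)
  · exact Computable.option_map h1 (Computable.fst.comp Computable.snd).to₂
  · exact Computable.option_map h1
      (Computable.fst.comp (Computable.snd.comp Computable.snd)).to₂
  · exact Computable.option_map h1
      (Computable.snd.comp (Computable.snd.comp Computable.snd)).to₂

/-- polynomials: lists of terms, a term being a coefficient and a list of variables -/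
abbrev Po (C : Type) : Type := List (C × List ℕ)

/-- the value of a polynomial over an extension of the ring -/
def value {L : Type} [CommRing L] (φ : R →+* L) (v : ℕ → L) (p : Po C) : L :=
  (p.map fun m => φ (c.dec m.1) * (m.2.map v).prod).sum

/-- the code of the value of a polynomial at a list of triples -/
noncomputable def valc (t : List (Tr C)) (p : Po C) : C :=
  p.foldl (fun s m => c.add s (m.2.foldl (fun q j => c.mul q (co c t j)) m.1)) (c.sur 0).choose

theorem foldl_mul (t : List (Tr C)) (l : List ℕ) (q : C) :
    c.dec (l.foldl (fun q j => c.mul q (co c t j)) q) =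
      c.dec q * (l.map fun j => c.dec (co c t j)).prod := by
  induction l generalizing q with
  | nil => simp
  | cons j l ih =>
    rw [List.foldl_cons, ih, c.dec_mul, List.map_cons, List.prod_cons, mul_assoc]

theorem valc_dec (t : List (Tr C)) (p : Po C) :
    c.dec (valc c t p) = value c (RingHom.id R) (fun j => c.dec (co c t j)) p := by
  have key : ∀ (p : Po C) (s : C),
      c.dec (p.foldl (fun s m => c.add s (m.2.foldl (fun q j => c.mul q (co c t j)) m.1)) s) =
        c.dec s + (p.map fun m => c.dec m.1 * (m.2.map fun j => c.dec (co c t j)).prod).sum := by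
    intro p
    induction p with
    | nil => intro s; simp
    | cons m p ih =>
      intro s
      rw [List.foldl_cons, ih, c.dec_add, foldl_mul, List.map_cons, List.sum_cons, add_assoc]
  rw [valc, key, (c.sur 0).choose_spec, zero_add]
  rfl

theorem valc_comp : Computable₂ (valc c) := by
  unfold valc
  refine RE.list_foldl (α := List (Tr C) × Po C) (f := fun x => x.2) (g := fun _ => (c.sur 0).choose)
    (h := fun x y => c.add y.1 (y.2.2.foldl (fun q j => c.mul q (co c x.1 j)) y.2.1))
    Computable.snd (Computable.const _) ?_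
  refine c.addc.comp (Computable.fst.comp Computable.snd) ?_
  refine RE.list_foldl (α := (List (Tr C) × Po C) × (C × (C × List ℕ)))
    (f := fun x => x.2.2.2) (g := fun x => x.2.2.1)
    (h := fun x y => c.mul y.1 (co c x.1.1 y.2)) ?_ ?_ ?_
  · exact Computable.snd.comp (Computable.snd.comp Computable.snd)
  · exact Computable.fst.comp (Computable.snd.comp Computable.snd)
  · refine c.mulc.comp (Computable.fst.comp Computable.snd) ?_
    exact (co_comp c).comp (Computable.fst.comp (Computable.fst.comp Computable.fst))
      (Computable.snd.comp Computable.snd)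

theorem rc_value {α : Type} [Primcodable α] {t : α → List (Tr C)} (ht : Computable t)
    {p : α → Po C} (hp : Computable p) :
    RC c fun a => value c (RingHom.id R) (fun j => c.dec (co c (t a) j)) (p a) :=
  ⟨fun a => valc c (t a) (p a), (valc_comp c).comp ht hp, fun a => valc_dec c _ _⟩

end Pool.Agent.Y213.HT
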