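import Pool.Agent.Y213.HT.Cod

/-! The coding of the integers of a number field by their coordinates with respect to an integral
basis. -/

set_option autoImplicit false

namespace Pool.Agent.Y213.HT

open Pool.Agent.Helper446

theorem prim_pi {α : Type} [Primcodable α] {d : ℕ} {f : α → Fin d → ℤ}
    (h : ∀ i, Primrec fun a => f a i) : Primrec f := by
  have h1 : Primrec₂ fun (i : Fin d) (a : α) => f a i := Primrec.fin_curry₁.2 h
  exact Primrec.fin_curry.2 h1.swap

theorem prim_sum {α ι : Type} [Primcodable α] {F : ι → α → ℤ} (hF : ∀ i, Primrec (F i))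
    (s : Finset ι) : Primrec fun a => ∑ i ∈ s, F i a := by
  classical
  induction s using Finset.induction_on with
  | empty => exact (Primrec.const 0).of_eq fun a => by simp
  | insert i s hi ih =>
    exact (prim_int_add.comp (hF i) ih).of_eq fun a => by rw [Finset.sum_insert hi]

theorem re_all {α ι : Type} [Primcodable α] {P : ι → α → Prop} (hP : ∀ i, REPred (P i))
    (s : Finset ι) : REPred fun a => ∀ i ∈ s, P i a := by
  classical
  induction s using Finset.induction_on with
  | empty => exact (RE.const True).of_eq fun a => by simp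
  | insert i s hi ih =>
    exact (RE.and (hP i) ih).of_eq fun a => by simp

theorem re_exs {α ι : Type} [Primcodable α] {P : ι → α → Prop} (hP : ∀ i, REPred (P i))
    (s : Finset ι) : REPred fun a => ∃ i ∈ s, P i a := by
  classical
  induction s using Finset.induction_on with
  | empty => exact (RE.const False).of_eq fun a => by simp
  | insert i s hi ih =>
    exact (RE.or (hP i) ih).of_eq fun a => by simp

theorem prim_app {α : Type} [Primcodable α] {d : ℕ} {f : α → Fin d → ℤ} (hf : Primrec f)
    (i : Fin d) : Primrec fun a => f a i :=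
  Primrec.fin_app.comp hf (Primrec.const i)

/-- the element with given coordinates -/
def lin {R : Type} [CommRing R] {d : ℕ} (ω : Fin d → R) (x : Fin d → ℤ) : R := ∑ i, x i • ω i

theorem dvd_lin {R : Type} [CommRing R] {d : ℕ} (ω : Module.Basis (Fin d) ℤ R) (N : ℕ)
    (x : Fin d → ℤ) : (N : R) ∣ lin ω x ↔ ∀ i, (N : ℤ) ∣ x i := by
  constructor
  · rintro ⟨r, hr⟩ i
    have h2 : ω.repr (lin ω x) i = x i := by
      rw [lin, ω.repr_sum_self]
    have h3 : ω.repr ((N : R) * r) i = N * ω.repr r i := by
      rw [← nsmul_eq_mul, map_nsmul]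
      simp
    exact ⟨ω.repr r i, by rw [← h3, ← hr, h2]⟩
  · intro h
    choose z hz using h
    refine ⟨lin ω z, ?_⟩
    rw [lin, lin, Finset.mul_sum]
    refine Finset.sum_congr rfl fun i _ => ?_
    rw [hz i, mul_smul, natCast_zsmul, nsmul_eq_mul]

/-- the coding by coordinates -/
noncomputable def codB {R : Type} [CommRing R] {d : ℕ} (ω : Module.Basis (Fin d) ℤ R) :
    Cod R (Fin d → ℤ) where
  dec := lin ω
  sur r := ⟨fun i => ω.repr r i, ω.sum_repr r⟩
  add x y := x + y
  addc := by
    refine Primrec.to_comp (prim_pi fun i => ?_)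
    exact prim_int_add.comp (prim_app Primrec.fst i) (prim_app Primrec.snd i)
  dec_add x y := by
    simp only [lin, Pi.add_apply, add_smul, Finset.sum_add_distrib]
  mul x y := fun k => ∑ i, ∑ j, x i * y j * ω.repr (ω i * ω j) k
  mulc := by
    refine Primrec.to_comp (prim_pi fun k => ?_)
    refine prim_sum (fun i => prim_sum (fun j => ?_) _) _
    exact prim_int_mul.comp (prim_int_mul.comp (prim_app Primrec.fst i) (prim_app Primrec.snd j))
      (Primrec.const _)
  dec_mul x y := by
    have h1 : ∀ i j, ω i * ω j = ∑ k, ω.repr (ω i * ω j) k • ω k := fun i j =>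
      (ω.sum_repr _).symm
    have h2 : lin ω x * lin ω y = ∑ i, ∑ j, (x i * y j) • (ω i * ω j) := by
      rw [lin, lin, Finset.sum_mul_sum]
      refine Finset.sum_congr rfl fun i _ => Finset.sum_congr rfl fun j _ => ?_
      rw [smul_mul_smul_comm]
    rw [h2, lin]
    simp only [Finset.sum_smul]
    rw [Finset.sum_comm]
    refine Finset.sum_congr rfl fun i _ => ?_
    rw [Finset.sum_comm]
    refine Finset.sum_congr rfl fun j _ => ?_
    conv_rhs => rw [h1 i j, Finset.smul_sum]
    refine Finset.sum_congr rfl fun k _ => ?_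
    rw [mul_smul]
  redvd := by
    have h := re_all (α := ℕ × (Fin d → ℤ)) (ι := Fin d) (P := fun i x => (x.1 : ℤ) ∣ x.2 i)
      (fun i => by
        have h1 : Primrec fun x : ℕ × (Fin d → ℤ) => (x.1, x.2 i) :=
          Primrec.fst.pair (prim_app Primrec.snd i)
        exact (prim_dvd.comp h1).computablePred.to_re) Finset.univ
    refine h.of_eq fun x => ?_
    rw [dvd_lin]
    simp
  rendvd := by
    have h := re_exs (α := ℕ × (Fin d → ℤ)) (ι := Fin d) (P := fun i x => ¬ (x.1 : ℤ) ∣ x.2 i)
      (fun i => by
        have h1 : Primrec fun x : ℕ × (Fin d → ℤ) => (x.1, x.2 i) :=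
          Primrec.fst.pair (prim_app Primrec.snd i)
        exact (prim_dvd.comp h1).not.computablePred.to_re) Finset.univ
    refine h.of_eq fun x => ?_
    rw [dvd_lin]
    push Not
    simp

end Pool.Agent.Y213.HT
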