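import Pool.Agent.Y213.HT.Gen

/-! The procedure and the families, with explicit coordinates. -/

set_option autoImplicit false

namespace Pool.Agent.Y213.HT

open WeierstrassCurve Pool.Agent.H901R3.MS Pool.Agent.Y213.R1 Pool.Agent.Y213.BD
open IsDedekindDomain NumberField Pool.Agent.TH954 Pool.Agent.TH942 Pool.Agent.Helper446
open Pool.Agent.Y213.T6 Pool.Agent.Y213.EC MvPolynomial

open scoped LinearAlgebra.Projectivization

variable {K : Type} [Field K] [NumberField K] {d : ℕ}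

/-- the input describes the member of the family over `t` -/
def MemIn (ω : Module.Basis (Fin d) ℤ (𝓞 K)) {r : ℕ} (i : Inp (Fin d → ℤ)) {n q : ℕ}
    (G : Fin q → Pol (𝓞 K) r n) (t : Fin n → K) : Prop :=
  i.2.2.1 = r ∧ ∀ e, ∃ p ∈ i.2.2.2, ∃ l : K, l ≠ 0 ∧ ∀ x : ℕ → K,
    valK ω p x = l * vl (algebraMap (𝓞 K) K) (G e) (fun k j => x (3 * k + j)) t

theorem codesMem_of {ω : Module.Basis (Fin d) ℤ (𝓞 K)} {r : ℕ} {i : Inp (Fin d → ℤ)} {n q : ℕ}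
    {G : Fin q → Pol (𝓞 K) r n} {t : Fin n → K} (h : MemIn ω i G t) :
    CodesMem (codB ω) i G t := by
  obtain ⟨h1, h2⟩ := h
  refine ⟨h1, fun e => ?_⟩
  obtain ⟨p, hp, l, hl, h3⟩ := h2 e
  refine ⟨p, hp, l, hl, fun x => ?_⟩
  have h4 := h3 (vr x)
  have h5 : (fun (k : Fin r) (j : Fin 3) => vr x (3 * k + j)) = fun k : Fin r => x k := by
    funext k j
    unfold vr
    have e1 : (3 * (k : ℕ) + j) / 3 = k := by omega
    have e2 : (⟨(3 * (k : ℕ) + j) % 3, Nat.mod_lt _ (by norm_num)⟩ : Fin 3) = j := Fin.ext (by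
      show (3 * (k : ℕ) + j) % 3 = j
      omega)
    rw [e2, e1]
  rw [h5] at h4
  exact h4

theorem eltK_inj (ω : Module.Basis (Fin d) ℤ (𝓞 K)) {x : Fin d → ℤ} {a : 𝓞 K}
    (h : eltK ω x = algebraMap (𝓞 K) K a) : (codB ω).dec x = a :=
  RingOfIntegers.ext h

theorem fin_main (K : Type) [Field K] [NumberField K] (d : ℕ)
    (ω : Module.Basis (Fin d) ℤ (𝓞 K)) :
    ∃ A : Inp (Fin d → ℤ) →. Bool, Partrec A ∧
      (∀ i, Adm (codB ω) i → ∀ s ∈ A i, (s = true ↔ HasPt (codB ω) i)) ∧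
      (∀ i, Adm (codB ω) i → HasPt (codB ω) i → (A i).Dom) ∧
      (∀ i, Adm (codB ω) i →
        SmallRk (sw (((codB ω).dec i.1.1 : 𝓞 K) : K) (((codB ω).dec i.1.2 : 𝓞 K) : K)) →
        (A i).Dom) ∧
      ∀ (r n q : ℕ) (a b : 𝓞 K), 4 * a ^ 3 + 27 * b ^ 2 ≠ 0 →
      ∀ (G : Fin q → Pol (𝓞 K) r (n + 1)) (dd : Fin q → Fin r → ℕ) (k : Fin q → ℕ),
      (∀ e, MHomog (G e) (dd e)) → (∀ e, XHomog (G e) (k e)) → ∀ (σ : K →+* ℂ),
      (∀ k' : ℕ, (∀ e, k e ≤ k') →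
        (∀ V : Fin r → Fin 3 → ℂ, (∀ i, OnK (σ a) (σ b) (V i)) → Fib (toC σ) G V ≠ Set.univ) →
        ∀ ε : ℝ, 0 < ε → ∃ C : ℝ, ∀ B : ℝ, 1 ≤ B → ∃ FF : Finset (MvPolynomial (Fin (n + 1)) K),
          (FF.card : ℝ) ≤ C * B ^ ε ∧ (∀ f ∈ FF, f ≠ 0 ∧ f.IsHomogeneous k') ∧
          ∀ y : ℙ K (Fin (n + 1) → K), y.mulHeight ≤ B → (∀ f ∈ FF, eval y.rep f ≠ 0) →
            ∀ i : Inp (Fin d → ℤ), Adm (codB ω) i → eltK ω i.1.1 = algebraMap (𝓞 K) K a →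
              eltK ω i.1.2 = algebraMap (𝓞 K) K b → MemIn ω i G y.rep → (A i).Dom) ∧
      ∀ D : ℕ, (∀ V : Fin r → Fin 3 → ℂ, (∀ i, OnK (σ a) (σ b) (V i)) →
          (Fib (toC σ) G V).encard ≤ D) →
        ∀ ε : ℝ, 0 < ε → ∃ C : ℝ, ∀ B : ℝ, 1 ≤ B → ∃ Z : Finset (ℙ K (Fin (n + 1) → K)),
          (Z.card : ℝ) ≤ C * B ^ ε ∧ ∀ y : ℙ K (Fin (n + 1) → K), y.mulHeight ≤ B → y ∉ Z →
            ∀ i : Inp (Fin d → ℤ), Adm (codB ω) i → eltK ω i.1.1 = algebraMap (𝓞 K) K a →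
              eltK ω i.1.2 = algebraMap (𝓞 K) K b → MemIn ω i G y.rep → (A i).Dom := by
  classical
  obtain ⟨A, hA, h1, h2, h3⟩ := alg_main (K := K) (codB ω)
  refine ⟨A, hA, h1, h2, ?_, ?_⟩
  · intro i hi hr
    by_cases h : HasPt (codB ω) i
    · exact h2 i hi h
    · exact h3 i hi (small_dom (codB ω) hi hr h)
  · intro r n q a b hd G dd k hG hX σ
    refine ⟨fun k' hk hns ε hε => ?_, fun D hns ε hε => ?_⟩
    · obtain ⟨C, hC⟩ := gen_dom (codB ω) r n q a b hd G dd k hG hX k' hk σ hns ε hε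
      refine ⟨C, fun B hB => ?_⟩
      obtain ⟨FF, f1, f2, f3⟩ := hC B hB
      exact ⟨FF, f1, f2, fun y hy hyF i hi ha hb hm => h3 i hi
        (f3 y hy hyF i hi (eltK_inj ω ha) (eltK_inj ω hb) (codesMem_of hm))⟩
    · obtain ⟨C, hC⟩ := gen_dom_fin (codB ω) r (n + 1) q a b hd G dd k hG hX D σ hns ε hε
      refine ⟨C, fun B hB => ?_⟩
      obtain ⟨Z, f1, f3⟩ := hC B hB
      exact ⟨Z, f1, fun y hy hyF i hi ha hb hm => h3 i hi
        (f3 y hy hyF i hi (eltK_inj ω ha) (eltK_inj ω hb) (codesMem_of hm))⟩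

end Pool.Agent.Y213.HT
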