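import Pool.Agent.Y213.HT.Small
import Pool.Agent.Y213.T6.FinH

/-! Most members of a family have a certificate. -/

set_option autoImplicit false

namespace Pool.Agent.Y213.HT

open WeierstrassCurve Pool.Agent.H901R3.MS Pool.Agent.Y213.R1 Pool.Agent.Y213.BD
open IsDedekindDomain NumberField Pool.Agent.TH954 Pool.Agent.TH942 Pool.Agent.Helper446
open Pool.Agent.Y213.T6 Pool.Agent.Y213.EC MvPolynomial

open scoped LinearAlgebra.Projectivization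

variable {K Cc : Type} [Field K] [NumberField K] [Primcodable Cc] (c : Cod (𝓞 K) Cc)

/-- the equations of the input contain those of the member over `t`, up to constants -/
def CodesMem {r : ℕ} (i : Inp Cc) {n q : ℕ} (G : Fin q → Pol (𝓞 K) r n)
    (t : Fin n → K) : Prop :=
  i.2.2.1 = r ∧ ∀ e, ∃ p ∈ i.2.2.2, ∃ l : K, l ≠ 0 ∧ ∀ x : ℕ → Fin 3 → K,
    value c (algebraMap (𝓞 K) K) (vr x) p =
      l * vl (algebraMap (𝓞 K) K) (G e) (fun k : Fin r => x k) t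

theorem onX_of_sys {i : Inp Cc} (hfs : ∀ p ∈ i.2.2.2, MHL i.2.2.1 p) {n q : ℕ}
    {G : Fin q → Pol (𝓞 K) i.2.2.1 n} {t : Fin n → K} (h : CodesMem c i G t) {L : Type} [Field L]
    [Algebra K L] {u : Fin i.2.2.1 → Fin 3 → L} (hu : OnX (Sys c i) u) : OnX (mbr G t) u := by
  obtain ⟨-, h⟩ := h
  rintro f ⟨e, rfl⟩
  obtain ⟨p, hp, l, hl, hx⟩ := h e
  have h1 : toMv c (algebraMap (𝓞 K) K) i.2.2.1 p = MvPolynomial.C l *
      eval₂ (MvPolynomial.C.comp (algebraMap (𝓞 K) K))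
        (Sum.elim X (fun i => MvPolynomial.C (t i))) (G e) := by
    apply MvPolynomial.funext
    intro V
    have h2 := eval_toMv c (algebraMap (𝓞 K) K) (RingHom.id K) i.2.2.1 (hfs p hp)
      (fun k j => V (k, j)) (fun k j => if h : k < i.2.2.1 then V (⟨k, h⟩, j) else 0)
      (fun k => by funext j; simp)
    have h3 : eval V (toMv c (algebraMap (𝓞 K) K) i.2.2.1 p) =
        value c (algebraMap (𝓞 K) K)
          (vr fun k j => if h : k < i.2.2.1 then V (⟨k, h⟩, j) else 0) p := h2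
    have h4 : eval V (eval₂ (MvPolynomial.C.comp (algebraMap (𝓞 K) K))
        (Sum.elim X (fun i => MvPolynomial.C (t i))) (G e)) =
        vl (algebraMap (𝓞 K) K) (G e) (fun k j => V (k, j)) t := by
      rw [hom_eval₂]
      unfold vl
      congr 1
      · ext x
        simp
      · funext x
        rcases x with ij | i <;> simp
    rw [map_mul, eval_C, h3, h4, hx]
    congr 2
    funext k j
    simp
  have h5 := hu _ ⟨p, hp, rfl⟩
  rw [h1, map_mul, aeval_C] at h5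
  rcases mul_eq_zero.1 h5 with h6 | h6
  · exfalso
    apply hl
    apply (algebraMap K L).injective
    rw [h6, map_zero]
  · exact h6

open scoped Classical in
theorem gen_dom (r n q : ℕ) (a b : 𝓞 K)
    (hd : 4 * a ^ 3 + 27 * b ^ 2 ≠ 0) (G : Fin q → Pol (𝓞 K) r (n + 1))
    (d : Fin q → Fin r → ℕ) (k : Fin q → ℕ) (hG : ∀ e, MHomog (G e) (d e))
    (hX : ∀ e, XHomog (G e) (k e)) (k' : ℕ) (hk : ∀ e, k e ≤ k') (σ : K →+* ℂ)
    (hns : ∀ V : Fin r → Fin 3 → ℂ, (∀ i, OnK (σ a) (σ b) (V i)) → Fib (toC σ) G V ≠ Set.univ)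
    (ε : ℝ) (hε : 0 < ε) :
    ∃ C : ℝ, ∀ B : ℝ, 1 ≤ B → ∃ FF : Finset (MvPolynomial (Fin (n + 1)) K),
      (FF.card : ℝ) ≤ C * B ^ ε ∧ (∀ f ∈ FF, f ≠ 0 ∧ f.IsHomogeneous k') ∧
      ∀ y : ℙ K (Fin (n + 1) → K), y.mulHeight ≤ B → (∀ f ∈ FF, eval y.rep f ≠ 0) →
        ∀ i : Inp Cc, Adm c i → c.dec i.1.1 = a → c.dec i.1.2 = b → CodesMem c i G y.rep →
          ¬ ∃ x ∈ adelicClosure (E := sw ((c.dec i.1.1 : 𝓞 K) : K) ((c.dec i.1.2 : 𝓞 K) : K))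
            (n := i.2.2.1) ∅ Set.univ, ∀ v, OnX (Sys c i) (fun k => crd (x v k)) := by
  obtain ⟨C, hC⟩ := closure_hyp K r n q a b hd G d k hG hX k' hk σ hns ∅ Set.finite_empty ε hε
  refine ⟨C, fun B hB => ?_⟩
  obtain ⟨FF, h1, h2, h3⟩ := hC B hB
  refine ⟨FF, h1, h2, ?_⟩
  rintro y hy hyF i ⟨-, hfs, -, -⟩ rfl rfl hcm ⟨x, hx, hxS⟩
  have hr := hcm.1
  subst hr
  obtain ⟨f, hf, hf0⟩ := h3 y hy ⟨x, hx, fun v => onX_of_sys c hfs hcm (hxS v)⟩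
  exact hyF f hf hf0

open scoped Classical in
theorem gen_dom_fin (r n q : ℕ) (a b : 𝓞 K)
    (hd : 4 * a ^ 3 + 27 * b ^ 2 ≠ 0) (G : Fin q → Pol (𝓞 K) r n)
    (d : Fin q → Fin r → ℕ) (k : Fin q → ℕ) (hG : ∀ e, MHomog (G e) (d e))
    (hX : ∀ e, XHomog (G e) (k e)) (D : ℕ) (σ : K →+* ℂ)
    (hns : ∀ V : Fin r → Fin 3 → ℂ, (∀ i, OnK (σ a) (σ b) (V i)) →
      (Fib (toC σ) G V).encard ≤ D)
    (ε : ℝ) (hε : 0 < ε) :
    ∃ C : ℝ, ∀ B : ℝ, 1 ≤ B → ∃ Z : Finset (ℙ K (Fin n → K)), (Z.card : ℝ) ≤ C * B ^ ε ∧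
      ∀ y : ℙ K (Fin n → K), y.mulHeight ≤ B → y ∉ Z →
        ∀ i : Inp Cc, Adm c i → c.dec i.1.1 = a → c.dec i.1.2 = b → CodesMem c i G y.rep →
          ¬ ∃ x ∈ adelicClosure (E := sw ((c.dec i.1.1 : 𝓞 K) : K) ((c.dec i.1.2 : 𝓞 K) : K))
            (n := i.2.2.1) ∅ Set.univ, ∀ v, OnX (Sys c i) (fun k => crd (x v k)) := by
  obtain ⟨C, hC⟩ := closure_main K r n q a b hd G d k hG hX D σ hns ∅ Set.finite_empty ε hε
  refine ⟨C, fun B hB => ?_⟩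
  obtain ⟨h1, h2⟩ := hC B hB
  refine ⟨h1.toFinset, ?_, ?_⟩
  · rwa [← Set.ncard_eq_toFinset_card _ h1]
  rintro y hy hyF i ⟨-, hfs, -, -⟩ rfl rfl hcm ⟨x, hx, hxS⟩
  have hr := hcm.1
  subst hr
  apply hyF
  rw [h1.mem_toFinset]
  exact ⟨hy, x, hx, fun v => onX_of_sys c hfs hcm (hxS v)⟩

end Pool.Agent.Y213.HT
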