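import Pool.Agent.Y213.R1.Cong
import Pool.Agent.Y213.BD.Sum

/-! Points of an elliptic curve over a field in coordinates in a ring, modulo a natural number. -/

set_option autoImplicit false

namespace Pool.Agent.Y213.HT

open WeierstrassCurve Pool.Agent.H901R3.MS Pool.Agent.Y213.R1 Pool.Agent.Y213.BD

open scoped WeierstrassCurve.Projective

section defs

variable {R K : Type} [CommRing R] [Field K] [Algebra R K] {a b : R}

/-- `u` is a vector of homogeneous coordinates of the point -/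
def IsRep (P : Pt (algebraMap R K a) (algebraMap R K b)) (u : Fin 3 → R) : Prop :=
  ∃ c : K, c ≠ 0 ∧ ∀ i, algebraMap R K (u i) = c * rep P i

/-- the coordinates generate the unit ideal modulo `N` -/
def Prm (N : ℕ) (u : Fin 3 → R) : Prop :=
  ∃ (W : Fin 3 → R) (z : R), u 0 * W 0 + u 1 * W 1 + u 2 * W 2 + N * z = 1

/-- the point is congruent to the origin modulo `N` -/
def NearP (N : ℕ) (P : Pt (algebraMap R K a) (algebraMap R K b)) : Prop :=
  ∃ u : Fin 3 → R, IsRep P u ∧ Prm N u ∧ (N : R) ∣ u 0 ∧ (N : R) ∣ u 2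

/-- congruent points of the plane -/
def CongR (N : ℕ) (u v : Fin 3 → R) : Prop := ∀ i j, (N : R) ∣ u i * v j - u j * v i

end defs

section inj

variable {R K : Type} [CommRing R] [Field K] [Algebra R K] {a b : R}
  (hinj : Function.Injective (algebraMap R K))

include hinj

theorem IsRep.ne {P : Pt (algebraMap R K a) (algebraMap R K b)} {u : Fin 3 → R}
    (h : IsRep P u) : u ≠ 0 := by
  obtain ⟨c, hc, h⟩ := h
  intro h0
  apply rep_ne_zero P
  funext i
  have h1 := h i
  rw [h0, Pi.zero_apply, map_zero] at h1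
  exact (mul_eq_zero.1 h1.symm).resolve_left hc

theorem IsRep.eqn {P : Pt (algebraMap R K a) (algebraMap R K b)} {u : Fin 3 → R}
    (h : IsRep P u) : u 1 ^ 2 * u 2 = u 0 ^ 3 + a * u 0 * u 2 ^ 2 + b * u 2 ^ 3 := by
  obtain ⟨c, hc, h⟩ := h
  apply hinj
  have h1 := rep_eqn P
  simp only [map_add, map_mul, map_pow, h]
  linear_combination c ^ 3 * h1

theorem IsRep.par {P : Pt (algebraMap R K a) (algebraMap R K b)} {u v : Fin 3 → R}
    (h : IsRep P u) (h' : IsRep P v) (i j : Fin 3) : u i * v j = u j * v i := by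
  obtain ⟨c, hc, h⟩ := h
  obtain ⟨c', hc', h'⟩ := h'
  apply hinj
  simp only [map_mul, h, h']
  ring

theorem IsRep.of_par {P : Pt (algebraMap R K a) (algebraMap R K b)} {u v : Fin 3 → R}
    (h : IsRep P u) (hv : v ≠ 0) (hp : ∀ i j, u i * v j = u j * v i) : IsRep P v := by
  have hu := h.ne hinj
  obtain ⟨c, hc, h⟩ := h
  obtain ⟨k, hk⟩ := Function.ne_iff.1 hu
  rw [Pi.zero_apply] at hk
  have hkK : algebraMap R K (u k) ≠ 0 := fun h0 => hk (hinj (by rw [h0, map_zero]))
  have hvk : v k ≠ 0 := by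
    intro h0
    apply hv
    funext j
    have h1 := hp k j
    rw [h0, mul_zero] at h1
    have h2 : algebraMap R K (u k) * algebraMap R K (v j) = 0 := by
      rw [← map_mul, h1, map_zero]
    rw [Pi.zero_apply]
    apply hinj
    rw [map_zero]
    exact (mul_eq_zero.1 h2).resolve_left hkK
  have hvkK : algebraMap R K (v k) ≠ 0 := fun h0 => hvk (hinj (by rw [h0, map_zero]))
  refine ⟨algebraMap R K (v k) / algebraMap R K (u k) * c, by positivity, fun i => ?_⟩
  have h1 := congrArg (algebraMap R K) (hp k i)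
  rw [map_mul, map_mul] at h1
  rw [mul_assoc, ← h i]
  field_simp
  linear_combination h1

/-- both addition laws -/
theorem IsRep.par_sum [DecidableEq K] {P Q : Pt (algebraMap R K a) (algebraMap R K b)}
    {u w s : Fin 3 → R} (hu : IsRep P u) (hw : IsRep Q w) (hs : IsRep (P + Q) s) :
    Par (L1 a b u w) s ∧ Par (L2 a b u w) s := by
  obtain ⟨c, hc, h⟩ := hu
  obtain ⟨c', hc', h'⟩ := hw
  obtain ⟨c'', hc'', h''⟩ := hs
  obtain ⟨⟨u1, u2, u3⟩, ⟨w1, w2, w3⟩⟩ := par_add P Q
  have e0 : algebraMap R K (L1 a b u w 0) = (c * c') ^ 2 * L1 (algebraMap R K a) (algebraMap R K b) (rep P) (rep Q) 0 := by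
    rw [L1_zero, L1_zero]
    simp only [map_add, map_sub, map_mul, map_ofNat, h, h']
    ring
  have e1 : algebraMap R K (L1 a b u w 1) = (c * c') ^ 2 * L1 (algebraMap R K a) (algebraMap R K b) (rep P) (rep Q) 1 := by
    rw [L1_one, L1_one]
    simp only [map_add, map_sub, map_mul, map_neg, map_ofNat, h, h']
    ring
  have e2 : algebraMap R K (L1 a b u w 2) = (c * c') ^ 2 * L1 (algebraMap R K a) (algebraMap R K b) (rep P) (rep Q) 2 := by
    rw [L1_two, L1_two]
    simp only [map_add, map_sub, map_mul, map_ofNat, h, h']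
    ring
  have f0 : algebraMap R K (L2 a b u w 0) = (c * c') ^ 2 * L2 (algebraMap R K a) (algebraMap R K b) (rep P) (rep Q) 0 := by
    rw [L2_zero, L2_zero]
    simp only [map_add, map_sub, map_mul, map_ofNat, h, h']
    ring
  have f1 : algebraMap R K (L2 a b u w 1) = (c * c') ^ 2 * L2 (algebraMap R K a) (algebraMap R K b) (rep P) (rep Q) 1 := by
    rw [L2_one, L2_one]
    simp only [map_add, map_sub, map_mul, map_ofNat, h, h']
    ring
  have f2 : algebraMap R K (L2 a b u w 2) = (c * c') ^ 2 * L2 (algebraMap R K a) (algebraMap R K b) (rep P) (rep Q) 2 := by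
    rw [L2_two, L2_two]
    simp only [map_add, map_mul, map_ofNat, h, h']
    ring
  have key : ∀ (A B : R) (i j : Fin 3) (A' B' : K), algebraMap R K A = (c * c') ^ 2 * A' →
      algebraMap R K B = (c * c') ^ 2 * B' → A' * rep (P + Q) j = B' * rep (P + Q) i →
      A * s j = B * s i := by
    intro A B i j A' B' hA hB hAB
    apply hinj
    rw [map_mul, map_mul, hA, hB, h'' i, h'' j]
    linear_combination (c * c') ^ 2 * c'' * hAB
  exact ⟨⟨key _ _ 0 1 _ _ e0 e1 u1, key _ _ 0 2 _ _ e0 e2 u2, key _ _ 1 2 _ _ e1 e2 u3⟩,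
    ⟨key _ _ 0 1 _ _ f0 f1 w1, key _ _ 0 2 _ _ f0 f2 w2, key _ _ 1 2 _ _ f1 f2 w3⟩⟩

omit hinj in
theorem CongR.refl (N : ℕ) (V : Fin 3 → R) : CongR N V V := fun i j => ⟨0, by ring⟩

omit hinj in
theorem CongR.symm {N : ℕ} {V V' : Fin 3 → R} (h : CongR N V V') : CongR N V' V := by
  intro i j
  obtain ⟨z, hz⟩ := h i j
  exact ⟨-z, by linear_combination -hz⟩

/-- translations by points near the origin -/
theorem congR_add [DecidableEq K] {N : ℕ} {P Q : Pt (algebraMap R K a) (algebraMap R K b)}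
    {u w s : Fin 3 → R} (hu : IsRep P u) (hw : IsRep Q w) (hs : IsRep (P + Q) s)
    (pu : Prm N u) (pw : Prm N w) (h0 : (N : R) ∣ w 0) (h2 : (N : R) ∣ w 2) : CongR N u s := by
  obtain ⟨⟨u1, u2, u3⟩, ⟨w1, w2, w3⟩⟩ := hu.par_sum hinj hw hs
  have hE := hu.eqn hinj
  obtain ⟨W, z, hW⟩ := pu
  obtain ⟨W', z', hW'⟩ := pw
  set ι : R →+* R ⧸ Ideal.span {(N : R)} := Ideal.Quotient.mk _ with hι
  have hz : ∀ x : R, ι x = 0 ↔ (N : R) ∣ x := fun x => by
    rw [hι, Ideal.Quotient.eq_zero_iff_mem, Ideal.mem_span_singleton]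
  have zN : ι (N : R) = 0 := (hz _).2 dvd_rfl
  have z0 : ι (w 0) = 0 := (hz _).2 h0
  have z2 : ι (w 2) = 0 := (hz _).2 h2
  have hq : ι (w 1) * ι (W' 1) = 1 := by
    have h := congrArg ι hW'
    rw [map_add, map_add, map_add, map_mul, map_mul, map_mul, map_mul, z0, z2, zN, map_one] at h
    linear_combination h
  have hp := congrArg ι hW
  have hE' := congrArg ι hE
  simp only [map_add, map_mul, map_pow, map_one, zN, zero_mul, add_zero] at hp hE'
  -- the laws modulo `N`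
  have a0 : ι (L1 a b u w 0) = ι (w 1) ^ 2 * ι (u 2) * ι (u 0) := by
    rw [L1_zero]
    simp only [map_add, map_sub, map_mul, map_ofNat, z0, z2]
    ring
  have a1 : ι (L1 a b u w 1) = ι (w 1) ^ 2 * ι (u 2) * ι (u 1) := by
    rw [L1_one]
    simp only [map_add, map_sub, map_mul, map_ofNat, map_neg, z0, z2]
    ring
  have a2 : ι (L1 a b u w 2) = ι (w 1) ^ 2 * ι (u 2) * ι (u 2) := by
    rw [L1_two]
    simp only [map_add, map_sub, map_mul, map_ofNat, z0, z2]
    ring
  have b0 : ι (L2 a b u w 0) = ι (w 1) ^ 2 * ι (u 1) * ι (u 0) := by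
    rw [L2_zero]
    simp only [map_add, map_sub, map_mul, map_ofNat, z0, z2]
    ring
  have b1 : ι (L2 a b u w 1) = ι (w 1) ^ 2 * ι (u 1) * ι (u 1) := by
    rw [L2_one]
    simp only [map_add, map_sub, map_mul, map_ofNat, z0, z2]
    ring
  have b2 : ι (L2 a b u w 2) = ι (w 1) ^ 2 * ι (u 1) * ι (u 2) := by
    rw [L2_two]
    simp only [map_add, map_mul, map_ofNat, z0, z2]
    ring
  have key : ∀ i j : Fin 3, ι (L1 a b u w i) = ι (w 1) ^ 2 * ι (u 2) * ι (u i) →
      ι (L1 a b u w j) = ι (w 1) ^ 2 * ι (u 2) * ι (u j) →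
      ι (L2 a b u w i) = ι (w 1) ^ 2 * ι (u 1) * ι (u i) →
      ι (L2 a b u w j) = ι (w 1) ^ 2 * ι (u 1) * ι (u j) →
      L1 a b u w i * s j = L1 a b u w j * s i →
      L2 a b u w i * s j = L2 a b u w j * s i →
      (N : R) ∣ u i * s j - u j * s i := by
    intro i j p1 p2 p3 p4 p5 p6
    rw [← hz]
    have e5 := congrArg ι p5
    have e6 := congrArg ι p6
    rw [map_mul, map_mul, p1, p2] at e5
    rw [map_mul, map_mul, p3, p4] at e6
    refine kill (ι a) (ι b) (ι (u 0)) (ι (u 1)) (ι (u 2)) (ι (W 0)) (ι (W 1)) (ι (W 2))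
      _ hE' hp ?_ ?_
    · rw [map_sub, map_mul, map_mul]
      linear_combination (ι (W' 1)) ^ 2 * e6 - ((ι (w 1)) * ι (W' 1) + 1) * (ι (u 1) *
        (ι (u i) * ι (s j) - ι (u j) * ι (s i))) * hq
    · rw [map_sub, map_mul, map_mul]
      linear_combination (ι (W' 1)) ^ 2 * e5 - ((ι (w 1)) * ι (W' 1) + 1) * (ι (u 2) *
        (ι (u i) * ι (s j) - ι (u j) * ι (s i))) * hq
  have k01 := key 0 1 a0 a1 b0 b1 u1 w1
  have k02 := key 0 2 a0 a2 b0 b2 u2 w2
  have k12 := key 1 2 a1 a2 b1 b2 u3 w3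
  intro i j
  fin_cases i <;> fin_cases j
  · exact ⟨0, by ring⟩
  · exact k01
  · exact k02
  · show (N : R) ∣ u 1 * s 0 - u 0 * s 1
    obtain ⟨z, hz⟩ := k01
    exact ⟨-z, by linear_combination -hz⟩
  · exact ⟨0, by ring⟩
  · exact k12
  · show (N : R) ∣ u 2 * s 0 - u 0 * s 2
    obtain ⟨z, hz⟩ := k02
    exact ⟨-z, by linear_combination -hz⟩
  · show (N : R) ∣ u 2 * s 1 - u 1 * s 2
    obtain ⟨z, hz⟩ := k12
    exact ⟨-z, by linear_combination -hz⟩
  · exact ⟨0, by ring⟩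

omit hinj in
/-- vectors congruent to a vector near the origin -/
theorem near_of_cong {N : ℕ} {u s : Fin 3 → R} (pu : Prm N u) (h : CongR N u s)
    (h0 : (N : R) ∣ u 0) (h2 : (N : R) ∣ u 2) : (N : R) ∣ s 0 ∧ (N : R) ∣ s 2 := by
  obtain ⟨W, z, hW⟩ := pu
  obtain ⟨s0, hs0⟩ := h0
  obtain ⟨s2, hs2⟩ := h2
  obtain ⟨t0, ht0⟩ := h 1 0
  obtain ⟨t2, ht2⟩ := h 1 2
  constructor
  · refine ⟨W 1 * t0 + W 1 * s0 * s 1 + s0 * W 0 * s 0 + s2 * W 2 * s 0 + z * s 0, ?_⟩
    linear_combination (-s 0) * hW + W 1 * ht0 + (W 0 * s 0 + W 1 * s 1) * hs0 + W 2 * s 0 * hs2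
  · refine ⟨W 1 * t2 + W 1 * s2 * s 1 + s0 * W 0 * s 2 + s2 * W 2 * s 2 + z * s 2, ?_⟩
    linear_combination (-s 2) * hW + W 1 * ht2 + W 0 * s 2 * hs0 + (W 1 * s 1 + W 2 * s 2) * hs2

theorem nearP_iff {N : ℕ} {P : Pt (algebraMap R K a) (algebraMap R K b)} {u : Fin 3 → R}
    (hu : IsRep P u) : NearP N P ↔ ∃ w : Fin 3 → R, w ≠ 0 ∧ (∀ i j, u i * w j = u j * w i) ∧
      Prm N w ∧ (N : R) ∣ w 0 ∧ (N : R) ∣ w 2 := by
  constructor
  · rintro ⟨w, hw, pw, h0, h2⟩
    exact ⟨w, hw.ne hinj, hu.par hinj hw, pw, h0, h2⟩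
  · rintro ⟨w, hw, hp, pw, h0, h2⟩
    exact ⟨w, hu.of_par hinj hw hp, pw, h0, h2⟩

theorem NearP.dvd {N : ℕ} {P : Pt (algebraMap R K a) (algebraMap R K b)} {u : Fin 3 → R}
    (h : NearP N P) (hu : IsRep P u) : (N : R) ∣ u 0 ∧ (N : R) ∣ u 2 := by
  obtain ⟨w, hw, pw, h0, h2⟩ := h
  refine near_of_cong pw (fun i j => ?_) h0 h2
  rw [hw.par hinj hu i j, sub_self]
  exact dvd_zero _

omit hinj in
theorem isRep_zero : IsRep (0 : Pt (algebraMap R K a) (algebraMap R K b)) (![0, 1, 0] : Fin 3 → R) := by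
  refine ⟨1, one_ne_zero, fun i => ?_⟩
  rw [rep_zero_pt]
  fin_cases i <;> simp

omit hinj in
theorem isRep_neg {P : Pt (algebraMap R K a) (algebraMap R K b)} {u : Fin 3 → R}
    (h : IsRep P u) : IsRep (-P) ![u 0, -u 1, u 2] := by
  obtain ⟨c, hc, h⟩ := h
  rcases P with _ | ⟨x, y, hn⟩
  · refine ⟨-c, neg_ne_zero.2 hc, fun i => ?_⟩
    have e : (-(Affine.Point.zero : Pt (algebraMap R K a) (algebraMap R K b))) = 0 := by
      rfl
    have e' : rep (Affine.Point.zero : Pt (algebraMap R K a) (algebraMap R K b)) = ![0, 1, 0] := rfl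
    rw [e, rep_zero_pt]
    rw [e'] at h
    have h0 := h 0
    have h1 := h 1
    have h2 := h 2
    fin_cases i
    · simpa using h0
    · simpa using h1
    · simpa using h2
  · have hn' : (CV (algebraMap R K a) (algebraMap R K b)).toAffine.Nonsingular x (-y) := by
      have h1 := (Affine.nonsingular_neg x y).2 hn
      have e : (CV (algebraMap R K a) (algebraMap R K b)).toAffine.negY x y = -y := by
        simp [Affine.negY, CV]
      rwa [e] at h1
    refine ⟨c, hc, fun i => ?_⟩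
    rw [neg_some' hn hn', rep_some]
    rw [rep_some] at h
    have h0 := h 0
    have h1 := h 1
    have h2 := h 2
    fin_cases i
    · simpa using h0
    · simpa using h1
    · simpa using h2

/-- the points near the origin are a subgroup -/
def nearG [DecidableEq K] {N : ℕ}
    (hex : ∀ P : Pt (algebraMap R K a) (algebraMap R K b), ∃ u : Fin 3 → R, IsRep P u ∧ Prm N u) :
    AddSubgroup (Pt (algebraMap R K a) (algebraMap R K b)) where
  carrier := {P | NearP N P}
  zero_mem' := ⟨![0, 1, 0], isRep_zero, ⟨![0, 1, 0], 0, by simp⟩, by simp, by simp⟩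
  add_mem' := by
    rintro P Q ⟨u, hu, pu, u0, u2⟩ ⟨w, hw, pw, w0, w2⟩
    obtain ⟨s, hs, ps⟩ := hex (P + Q)
    obtain ⟨s0, s2⟩ := near_of_cong pu (congR_add hinj hu hw hs pu pw w0 w2) u0 u2
    exact ⟨s, hs, ps, s0, s2⟩
  neg_mem' := by
    rintro P ⟨u, hu, ⟨W, z, hW⟩, u0, u2⟩
    refine ⟨_, isRep_neg hu, ⟨![W 0, -W 1, W 2], z, ?_⟩, ?_, ?_⟩
    · simpa using hW
    · simpa using u0
    · simpa using u2

/-- polynomial relation for the sum of two points -/
def SumR {R : Type} [CommRing R] (a b : R) (u w D : Fin 3 → R) : Prop :=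
  ((∀ i j, u i * w j = u j * w i) ∧ D = (CR a b).dblXYZ u) ∨
  ((¬ ∀ i j, u i * w j = u j * w i) ∧ D = (CR a b).addXYZ u w)

omit hinj in
theorem equiv_iff {F : Type} [Field F] {u w : Fin 3 → F} (hu : u ≠ 0) (hw : w ≠ 0) :
    u ≈ w ↔ ∀ i j, u i * w j = u j * w i := by
  constructor
  · rintro ⟨c, hc⟩ i j
    have h1 : ∀ i, u i = (c : F) * w i := fun i => by
      have := congrFun hc i
      simp only [Pi.smul_apply] at this
      rw [← this]
      rfl
    rw [h1 i, h1 j]
    ring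
  · intro h
    obtain ⟨k, hk⟩ := Function.ne_iff.1 hw
    rw [Pi.zero_apply] at hk
    have huk : u k ≠ 0 := by
      intro h0
      apply hu
      funext i
      have h1 := h i k
      rw [h0, zero_mul] at h1
      exact (mul_eq_zero.1 h1).resolve_right hk
    refine ⟨Units.mk0 (u k / w k) (div_ne_zero huk hk), ?_⟩
    funext i
    simp only [Pi.smul_apply]
    show (u k / w k) * w i = u i
    rw [div_mul_eq_mul_div, div_eq_iff hk, h k i]

theorem sumR_rep [DecidableEq K] {P Q : Pt (algebraMap R K a) (algebraMap R K b)}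
    {u w D : Fin 3 → R} (hu : IsRep P u) (hw : IsRep Q w) (hD : SumR a b u w D) :
    IsRep (P + Q) D := by
  have hu0 := hu.ne hinj
  have hw0 := hw.ne hinj
  obtain ⟨c, hc, h⟩ := hu
  obtain ⟨c', hc', h'⟩ := hw
  have nz : ∀ v : Fin 3 → R, v ≠ 0 → (algebraMap R K ∘ v) ≠ 0 := by
    intro v hv h0
    apply hv
    funext i
    apply hinj
    rw [Pi.zero_apply, map_zero]
    exact congrFun h0 i
  have eu : (algebraMap R K ∘ u) ≈ rep P := ⟨Units.mk0 c hc, by
    funext i
    exact (h i).symm⟩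
  have ew : (algebraMap R K ∘ w) ≈ rep Q := ⟨Units.mk0 c' hc', by
    funext i
    exact (h' i).symm⟩
  have nu : Projective.Nonsingular (CR (algebraMap R K a) (algebraMap R K b)) (algebraMap R K ∘ u) := by
    obtain ⟨k, hk⟩ := eu
    rw [← hk]
    exact (Projective.nonsingular_smul _ k.isUnit).2 (ns_rep P)
  have nw : Projective.Nonsingular (CR (algebraMap R K a) (algebraMap R K b)) (algebraMap R K ∘ w) := by
    obtain ⟨k, hk⟩ := ew
    rw [← hk]
    exact (Projective.nonsingular_smul _ k.isUnit).2 (ns_rep Q)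
  have hadd : algebraMap R K ∘ D = Projective.add (CR (algebraMap R K a) (algebraMap R K b)) (algebraMap R K ∘ u) (algebraMap R K ∘ w) := by
    rcases hD with ⟨h1, h2⟩ | ⟨h1, h2⟩
    · have h3 : (algebraMap R K ∘ u) ≈ (algebraMap R K ∘ w) := (equiv_iff (nz _ hu0) (nz _ hw0)).2 fun i j => by
        simp only [Function.comp_apply, ← map_mul, h1 i j]
      rw [Projective.add_of_equiv h3, h2, ← CR_map (algebraMap R K) a b]
      exact (Projective.map_dblXYZ (W' := CR a b) (algebraMap R K) _).symm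
    · have h3 : ¬ (algebraMap R K ∘ u) ≈ (algebraMap R K ∘ w) := by
        intro h4
        apply h1
        intro i j
        apply hinj
        rw [map_mul, map_mul]
        exact (equiv_iff (nz _ hu0) (nz _ hw0)).1 h4 i j
      rw [Projective.add_of_not_equiv h3, h2, ← CR_map (algebraMap R K) a b]
      exact (Projective.map_addXYZ (W' := CR a b) (algebraMap R K) _ _).symm
  have h4 : pt (algebraMap R K a) (algebraMap R K b) (algebraMap R K ∘ D) = P + Q := by
    rw [hadd, pt_add nu nw, pt_of_equiv eu, pt_of_equiv ew, pt_rep, pt_rep]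
  have h5 : rep (P + Q) ≈ (algebraMap R K ∘ D) := by
    rw [← h4]
    apply rep_pt
    rw [hadd]
    exact Projective.nonsingular_add nu nw
  obtain ⟨k, hk⟩ := Setoid.symm h5
  refine ⟨k, k.ne_zero, fun i => ?_⟩
  exact (congrFun hk i).symm

omit hinj in
/-- the sum exists -/
theorem exists_sumR (a b : R) (u w : Fin 3 → R) : ∃ D, SumR a b u w D := by
  by_cases h : ∀ i j, u i * w j = u j * w i
  · exact ⟨_, Or.inl ⟨h, rfl⟩⟩
  · exact ⟨_, Or.inr ⟨h, rfl⟩⟩

end inj

end Pool.Agent.Y213.HT
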