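import Pool.Agent.Y213.HT.Geo
import Mathlib.NumberTheory.NumberField.Basic
import Mathlib.RingTheory.DedekindDomain.Ideal.Lemmas

/-! Coordinates of points in a Dedekind domain which generate the unit ideal modulo `N`. -/

set_option autoImplicit false

namespace Pool.Agent.Y213.HT

open WeierstrassCurve Pool.Agent.H901R3.MS Pool.Agent.Y213.R1 Pool.Agent.Y213.BD

variable {R K : Type} [CommRing R] [IsDedekindDomain R] [Field K] [Algebra R K]
  [IsFractionRing R K]

theorem exists_coprime_rep (x : Fin 3 → K) (hx : x ≠ 0) (N : ℕ) (hN : (N : R) ≠ 0) :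
    ∃ (u : Fin 3 → R) (c : K), c ≠ 0 ∧ (∀ i, algebraMap R K (u i) = c * x i) ∧ Prm N u := by
  classical
  obtain ⟨⟨b, hb⟩, hbx⟩ := IsLocalization.exist_integer_multiples_of_finite (nonZeroDivisors R) x
  choose y hy using hbx
  have hb0 : b ≠ 0 := nonZeroDivisors.ne_zero hb
  have hbK : algebraMap R K b ≠ 0 := (map_ne_zero_iff _ (IsFractionRing.injective R K)).2 hb0
  have hy' : ∀ i, algebraMap R K (y i) = algebraMap R K b * x i := fun i => by
    rw [hy i, Algebra.smul_def]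
  have hinj := IsFractionRing.injective R K
  obtain ⟨k, hk⟩ := Function.ne_iff.1 hx
  rw [Pi.zero_apply] at hk
  have hyk : y k ≠ 0 := by
    intro h0
    have h1 := hy' k
    rw [h0, map_zero] at h1
    exact (mul_ne_zero hbK hk) h1.symm
  set J : Ideal R := Ideal.span (Set.range y) with hJ
  have hkJ : y k ∈ J := Ideal.subset_span ⟨k, rfl⟩
  have hdvd : J ∣ Ideal.span {y k} := by
    rw [Ideal.dvd_iff_le, Ideal.span_singleton_le_iff_mem]
    exact hkJ
  obtain ⟨J', hJ'⟩ := hdvd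
  have hspan0 : Ideal.span {y k} ≠ ⊥ := by
    rw [Ne, Ideal.span_singleton_eq_bot]
    exact hyk
  have hJ'0 : J' ≠ ⊥ := by
    rintro rfl
    rw [Ideal.mul_bot] at hJ'
    exact hspan0 hJ'
  have hNJ : Ideal.span {(N : R)} * J' ≠ ⊥ := by
    rw [Ne, Ideal.mul_eq_bot, not_or]
    refine ⟨?_, hJ'0⟩
    rw [Ideal.span_singleton_eq_bot]
    exact hN
  obtain ⟨α, hα, hα0⟩ : ∃ α, Ideal.span {(N : R)} * J' ⊔ Ideal.span {α} = J' ∧ α ≠ 0 := by
    obtain ⟨α, hα⟩ := IsDedekindDomain.exists_sup_span_eq (I := Ideal.span {(N : R)} * J')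
      (J := J') Ideal.mul_le_right hNJ
    by_cases h : α = 0
    · obtain ⟨β, hβ, hβ0⟩ := Submodule.exists_mem_ne_zero_of_ne_bot hJ'0
      refine ⟨β, ?_, hβ0⟩
      rw [h] at hα
      simp only [Set.singleton_zero, Ideal.span_zero, bot_le, sup_of_le_left] at hα
      rw [hα]
      exact sup_eq_left.2 ((Ideal.span_singleton_le_iff_mem _).2 hβ)
    · exact ⟨α, hα, h⟩
  have hαJ : α ∈ J' := by
    rw [← hα]
    exact Ideal.mem_sup_right (Ideal.mem_span_singleton_self α)
  have hu : ∀ i, ∃ u, α * y i = y k * u := by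
    intro i
    have h1 : α * y i ∈ J' * J := Ideal.mul_mem_mul hαJ (Ideal.subset_span ⟨i, rfl⟩)
    rw [mul_comm J' J, ← hJ', Ideal.mem_span_singleton] at h1
    obtain ⟨u, hu⟩ := h1
    exact ⟨u, hu⟩
  choose u hu using hu
  have hαK : algebraMap R K α ≠ 0 := (map_ne_zero_iff _ hinj).2 hα0
  have hykK : algebraMap R K (y k) ≠ 0 := (map_ne_zero_iff _ hinj).2 hyk
  refine ⟨u, algebraMap R K α * algebraMap R K b / algebraMap R K (y k), ?_, fun i => ?_, ?_⟩
  · exact div_ne_zero (mul_ne_zero hαK hbK) hykK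
  · have h1 := congrArg (algebraMap R K) (hu i)
    rw [map_mul, map_mul, hy' i] at h1
    field_simp
    linear_combination -h1
  · have h1 : y k ∈ (Ideal.span {(N : R)} * J' ⊔ Ideal.span {α}) * J := by
      rw [hα, mul_comm, ← hJ']
      exact Ideal.mem_span_singleton_self _
    rw [Ideal.sup_mul, mul_assoc, mul_comm J' J, ← hJ', Ideal.span_singleton_mul_span_singleton,
      Submodule.mem_sup] at h1
    obtain ⟨s, hs, t, ht, hst⟩ := h1
    rw [Ideal.mem_span_singleton] at hs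
    obtain ⟨z, hz⟩ := hs
    rw [Ideal.mem_span_singleton_mul] at ht
    obtain ⟨r, hr, hrt⟩ := ht
    rw [hJ, Ideal.mem_span_range_iff_exists_fun] at hr
    obtain ⟨W, hW⟩ := hr
    refine ⟨W, z, ?_⟩
    apply mul_left_cancel₀ hyk
    rw [Fin.sum_univ_three] at hW
    linear_combination (-W 0) * hu 0 - W 1 * hu 1 - W 2 * hu 2 + α * hW + hrt + hst - hz

theorem hex {a b : R} {N : ℕ} (hN : (N : R) ≠ 0)
    (P : Pt (algebraMap R K a) (algebraMap R K b)) : ∃ u : Fin 3 → R, IsRep P u ∧ Prm N u := by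
  obtain ⟨u, c, hc, hu, hp⟩ := exists_coprime_rep (R := R) (rep P) (rep_ne_zero P) N hN
  exact ⟨u, ⟨c, hc, hu⟩, hp⟩

end Pool.Agent.Y213.HT
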