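import Pool.Agent.Y213.HT.Cert

/-! The certificates and the rational points are recursively enumerable. -/

set_option autoImplicit false

namespace Pool.Agent.Y213.HT

open WeierstrassCurve Pool.Agent.H901R3.MS Pool.Agent.Y213.R1 Pool.Agent.Y213.BD
open Pool.Agent.Helper446

variable {R C : Type} [CommRing R] [Primcodable C] {c : Cod R C}

section

variable {α : Type} [Primcodable α]

theorem re_allF {ι : Type} [Fintype ι] {P : ι → α → Prop} (hP : ∀ i, REPred (P i)) :
    REPred fun a => ∀ i, P i a := by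
  classical
  have key : ∀ s : Finset ι, REPred fun a => ∀ i ∈ s, P i a := by
    intro s
    induction s using Finset.induction_on with
    | empty => exact (RE.const True).of_eq fun a => by simp
    | insert i s hi ih => exact (RE.and (hP i) ih).of_eq fun a => by simp
  exact (key Finset.univ).of_eq fun a => by simp

theorem re_exF {ι : Type} [Fintype ι] {P : ι → α → Prop} (hP : ∀ i, REPred (P i)) :
    REPred fun a => ∃ i, P i a := by
  classical
  have key : ∀ s : Finset ι, REPred fun a => ∃ i ∈ s, P i a := by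
    intro s
    induction s using Finset.induction_on with
    | empty => exact (RE.const False).of_eq fun a => by simp
    | insert i s hi ih => exact (RE.or (hP i) ih).of_eq fun a => by simp
  exact (key Finset.univ).of_eq fun a => by simp

/-- natural numbers as elements of the ring -/
theorem RC.nat {N : α → ℕ} (hN : Computable N) : RC c fun a => (N a : R) := by
  obtain ⟨z, hz⟩ := c.sur 0
  obtain ⟨o, ho⟩ := c.sur 1
  refine ⟨fun a => Nat.rec (motive := fun _ => C) z (fun _ r => c.add r o) (N a), ?_, ?_⟩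
  · exact Computable.nat_rec (h := fun _ (y : ℕ × C) => c.add y.2 o) hN (Computable.const z)
      (c.addc.comp (Computable.snd.comp Computable.snd) (Computable.const o))
  · intro a
    show c.dec (Nat.rec (motive := fun _ => C) z (fun _ r => c.add r o) (N a)) = (N a : R)
    generalize N a = n
    induction n with
    | zero => rw [Nat.cast_zero]; exact hz
    | succ n ih =>
      show c.dec (c.add (Nat.rec (motive := fun _ => C) z (fun _ r => c.add r o) n) o) = _
      rw [c.dec_add, ih, ho, Nat.cast_succ]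

/-- existential quantification over vectors -/
theorem exv {p : α → (Fin 3 → R) → Prop} (hp : REPred fun x : α × Tr C => p x.1 (vc c x.2)) :
    REPred fun a => ∃ v, p a v :=
  (RE.ex (p := fun a x => p a (vc c x)) hp).of_eq fun a => by
    constructor
    · rintro ⟨x, hx⟩
      exact ⟨_, hx⟩
    · rintro ⟨r, hr⟩
      obtain ⟨x, rfl⟩ := vc_sur c r
      exact ⟨x, hr⟩

variable {f g h : α → Fin 3 → R} (hf : ∀ i, RC c fun a => f a i) (hg : ∀ i, RC c fun a => g a i)
  (hh : ∀ i, RC c fun a => h a i) {A B : α → R} (hA : RC c A) (hB : RC c B) {N : α → ℕ}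
  (hN : Computable N)

include hf hg in
theorem re_par : REPred fun a => ∀ i j, f a i * g a j = f a j * g a i :=
  re_allF fun i => re_allF fun j => ((hf i).mul (hg j)).re_eq ((hf j).mul (hg i))

include hf hg in
theorem re_npar : REPred fun a => ¬ ∀ i j, f a i * g a j = f a j * g a i :=
  (re_exF fun i => re_exF fun j => ((hf i).mul (hg j)).re_ne ((hf j).mul (hg i))).of_eq
    fun a => by push Not; rfl

include hf hg in
theorem re_veq : REPred fun a => f a = g a :=
  (re_allF fun i => (hf i).re_eq (hg i)).of_eq fun a => funext_iff.symm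

include hf in
theorem re_vne : REPred fun a => f a ≠ 0 :=
  (re_exF fun i => (hf i).re_nz).of_eq fun a => Function.ne_iff.symm

include hf hN in
theorem re_prm : REPred fun a => Prm (N a) (f a) := by
  have h1 : REPred fun a => ∃ W : Fin 3 → R, ∃ z : R,
      f a 0 * W 0 + f a 1 * W 1 + f a 2 * W 2 + N a * z = 1 := by
    refine exv (c := c) (p := fun a W => ∃ z : R,
      f a 0 * W 0 + f a 1 * W 1 + f a 2 * W 2 + N a * z = 1) ?_
    refine RC.ex (c := c) (p := fun (x : α × Tr C) (z : R) =>
      f x.1 0 * vc c x.2 0 + f x.1 1 * vc c x.2 1 + f x.1 2 * vc c x.2 2 + N x.1 * z = 1) ?_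
    have e1 : Computable fun x : (α × Tr C) × C => x.1.1 := Computable.fst.comp Computable.fst
    have e2 : ∀ i, RC c fun x : (α × Tr C) × C => vc c x.1.2 i :=
      fun i => rc_vc c (Computable.snd.comp Computable.fst) i
    have e3 : RC c fun x : (α × Tr C) × C => (N x.1.1 : R) := RC.nat (hN.comp e1)
    have e4 : RC c fun x : (α × Tr C) × C => c.dec x.2 := RC.dec Computable.snd
    exact (((((((hf 0).comp e1).mul (e2 0)).add (((hf 1).comp e1).mul (e2 1))).add
      (((hf 2).comp e1).mul (e2 2))).add (e3.mul e4))).re_eq (RC.const 1)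
  exact h1

include hf hg hA hB in
theorem rc_gen (k : Fin 8) : RC c fun a =>
    (![A a, B a, f a 0, f a 1, f a 2, g a 0, g a 1, g a 2] : Fin 8 → R) k := by
  fin_cases k
  · exact hA
  · exact hB
  · exact hf 0
  · exact hf 1
  · exact hf 2
  · exact hg 0
  · exact hg 1
  · exact hg 2

include hf hA hB in
theorem rc_dbl (i : Fin 3) : RC c fun a => (CR (A a) (B a)).dblXYZ (f a) i := by
  let W : Projective (MvPolynomial (Fin 8) R) := CR (MvPolynomial.X 0) (MvPolynomial.X 1)
  let F : MvPolynomial (Fin 8) R :=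
    W.dblXYZ ![MvPolynomial.X 2, MvPolynomial.X 3, MvPolynomial.X 4] i
  refine (RC.ev (rc_gen hf hf hA hB) F).of_eq fun a => ?_
  let v : Fin 8 → R := ![A a, B a, f a 0, f a 1, f a 2, f a 0, f a 1, f a 2]
  have h1 := congrFun (Projective.map_dblXYZ (W' := W) (MvPolynomial.eval v)
    ![MvPolynomial.X 2, MvPolynomial.X 3, MvPolynomial.X 4]) i
  have h2 : WeierstrassCurve.map W (MvPolynomial.eval v) = CR (A a) (B a) := by
    rw [CR_map, MvPolynomial.eval_X, MvPolynomial.eval_X]
    rfl
  have h3 : (MvPolynomial.eval v) ∘ ![MvPolynomial.X 2, MvPolynomial.X 3, MvPolynomial.X 4] =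
      f a := by
    funext j
    fin_cases j <;> simp [v]
  rw [h3] at h1
  have h4 : (WeierstrassCurve.map W (MvPolynomial.eval v)).toProjective.dblXYZ (f a) i =
      (CR (A a) (B a)).dblXYZ (f a) i := by
    rw [← h2]
  rw [← h4, h1]
  rfl

include hf hg hA hB in
theorem rc_add (i : Fin 3) : RC c fun a => (CR (A a) (B a)).addXYZ (f a) (g a) i := by
  let W : Projective (MvPolynomial (Fin 8) R) := CR (MvPolynomial.X 0) (MvPolynomial.X 1)
  let F : MvPolynomial (Fin 8) R :=
    W.addXYZ ![MvPolynomial.X 2, MvPolynomial.X 3, MvPolynomial.X 4]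
      ![MvPolynomial.X 5, MvPolynomial.X 6, MvPolynomial.X 7] i
  refine (RC.ev (rc_gen hf hg hA hB) F).of_eq fun a => ?_
  let v : Fin 8 → R := ![A a, B a, f a 0, f a 1, f a 2, g a 0, g a 1, g a 2]
  have h1 := congrFun (Projective.map_addXYZ (W' := W) (MvPolynomial.eval v)
    ![MvPolynomial.X 2, MvPolynomial.X 3, MvPolynomial.X 4]
    ![MvPolynomial.X 5, MvPolynomial.X 6, MvPolynomial.X 7]) i
  have h2 : WeierstrassCurve.map W (MvPolynomial.eval v) = CR (A a) (B a) := by
    rw [CR_map, MvPolynomial.eval_X, MvPolynomial.eval_X]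
    rfl
  have h3 : (MvPolynomial.eval v) ∘ ![MvPolynomial.X 2, MvPolynomial.X 3, MvPolynomial.X 4] =
      f a := by
    funext j
    fin_cases j <;> simp [v]
  have h5 : (MvPolynomial.eval v) ∘ ![MvPolynomial.X 5, MvPolynomial.X 6, MvPolynomial.X 7] =
      g a := by
    funext j
    fin_cases j <;> simp [v]
  rw [h3, h5] at h1
  have h4 : (WeierstrassCurve.map W (MvPolynomial.eval v)).toProjective.addXYZ (f a) (g a) i =
      (CR (A a) (B a)).addXYZ (f a) (g a) i := by
    rw [← h2]
  rw [← h4, h1]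
  rfl

include hf hg hh hA hB in
theorem re_sumR : REPred fun a => SumR (A a) (B a) (f a) (g a) (h a) := by
  refine RE.or (RE.and (re_par hf hg) ?_) (RE.and (re_npar hf hg) ?_)
  · exact re_veq hh (rc_dbl hf hA hB)
  · exact re_veq hh (rc_add hf hg hA hB)

include hf hN in
theorem re_nearD : REPred fun a => NearD (N a) (f a) := by
  refine exv (c := c) (p := fun a w => w ≠ 0 ∧ (∀ i j, f a i * w j = f a j * w i) ∧
    Prm (N a) w ∧ ((N a : ℕ) : R) ∣ w 0 ∧ ((N a : ℕ) : R) ∣ w 2) ?_
  have e1 : ∀ i, RC c fun x : α × Tr C => vc c x.2 i := fun i => rc_vc c Computable.snd i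
  have e2 : ∀ i, RC c fun x : α × Tr C => f x.1 i := fun i => (hf i).comp Computable.fst
  have e3 : Computable fun x : α × Tr C => N x.1 := hN.comp Computable.fst
  exact RE.and (re_vne e1) (RE.and (re_par e2 e1) (RE.and (re_prm e1 e3)
    (RE.and ((e1 0).re_dvd e3) ((e1 2).re_dvd e3))))

include hf hg hh hA hB hN in
theorem re_step : REPred fun a => StepR (A a) (B a) (N a) (f a) (g a) (h a) := by
  refine exv (c := c) (p := fun a D1 => ∃ D2 : Fin 3 → R, SumR (A a) (B a) (f a) (g a) D1 ∧
    SumR (A a) (B a) D1 (ngv (h a)) D2 ∧ NearD (N a) D2) ?_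
  refine exv (c := c) (p := fun (x : α × Tr C) D2 =>
    SumR (A x.1) (B x.1) (f x.1) (g x.1) (vc c x.2) ∧
    SumR (A x.1) (B x.1) (vc c x.2) (ngv (h x.1)) D2 ∧ NearD (N x.1) D2) ?_
  have e1 : Computable fun x : (α × Tr C) × Tr C => x.1.1 := Computable.fst.comp Computable.fst
  have e2 : ∀ i, RC c fun x : (α × Tr C) × Tr C => vc c x.1.2 i :=
    fun i => rc_vc c (Computable.snd.comp Computable.fst) i
  have e3 : ∀ i, RC c fun x : (α × Tr C) × Tr C => vc c x.2 i := fun i => rc_vc c Computable.snd i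
  have e4 : ∀ i, RC c fun x : (α × Tr C) × Tr C => ngv (h x.1.1) i := by
    intro i
    fin_cases i
    · exact (hh 0).comp e1
    · exact ((hh 1).comp e1).neg
    · exact (hh 2).comp e1
  exact RE.and (re_sumR (fun i => (hf i).comp e1) (fun i => (hg i).comp e1) e2 (hA.comp e1)
    (hB.comp e1)) (RE.and (re_sumR e2 e4 e3 (hA.comp e1) (hB.comp e1))
    (re_nearD e3 (hN.comp e1)))

include hf hA hB in
theorem re_eqn : REPred fun a => f a ≠ 0 ∧
    f a 1 ^ 2 * f a 2 = f a 0 ^ 3 + A a * f a 0 * f a 2 ^ 2 + B a * f a 2 ^ 3 := by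
  refine RE.and (re_vne hf) ?_
  have h0 := hf 0
  have h1 := hf 1
  have h2 := hf 2
  refine (((h1.mul h1).mul h2).re_eq ((((h0.mul h0).mul h0).add ((hA.mul h0).mul (h2.mul h2))).add
    (hB.mul ((h2.mul h2).mul h2)))).of_eq fun a => ?_
  constructor
  · intro h
    linear_combination h
  · intro h
    linear_combination h

include hf hA hB hN in
theorem re_okP : REPred fun a => OkP (A a) (B a) (N a) (f a) :=
  (RE.and (re_eqn hf hA hB) (re_prm hf hN)).of_eq fun a => by
    unfold OkP
    tauto

theorem rc_tv {t : α → List (Tr C)} (ht : Computable t) {k : α → ℕ} (hk : Computable k)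
    (i : Fin 3) : RC c fun a => tv c (t a) (k a) i := by
  refine rc_vc c (f := fun a => (t a).getD (k a)
    ((c.sur 0).choose, (c.sur 0).choose, (c.sur 0).choose)) ?_ i
  have h1 : Computable fun a => ((t a)[k a]?).getD
      ((c.sur 0).choose, (c.sur 0).choose, (c.sur 0).choose) :=
    (Primrec.option_getD.to_comp).comp (Computable.list_getElem?.comp ht hk) (Computable.const _)
  exact h1.of_eq fun a => (List.getD_eq_getElem?_getD ..).symm

theorem rc_val {t : α → List (Tr C)} (ht : Computable t) {p : α → Po C} (hp : Computable p) :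
    RC c fun a => value c (RingHom.id R) (vr (tv c (t a))) (p a) :=
  (rc_value c ht hp).of_eq fun a => by rw [co_tv]

include hg hN in
theorem re_move {i : α → Inp C} (hi : Computable i) {t t' : α → List (Tr C)} (ht : Computable t)
    (ht' : Computable t') {k0 : α → ℕ} (hk0 : Computable k0) :
    REPred fun a => Move c (i a) (N a) (t a) (t' a) (k0 a) (g a) := by
  refine RE.all_lt (p := fun a k => (k = k0 a → StepR (c.dec (i a).1.1) (c.dec (i a).1.2) (N a)
      (tv c (t a) k) (g a) (tv c (t' a) k)) ∧ (k ≠ k0 a → StepR (c.dec (i a).1.1)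
      (c.dec (i a).1.2) (N a) (tv c (t a) k) ![0, 1, 0] (tv c (t' a) k))) (f := fun a => (i a).2.2.1)
    ?_ (Computable.fst.comp (Computable.snd.comp (Computable.snd.comp hi)))
  have e1 : Computable fun x : α × ℕ => x.1 := Computable.fst
  have eA : RC c fun x : α × ℕ => c.dec (i x.1).1.1 :=
    RC.dec (Computable.fst.comp (Computable.fst.comp (hi.comp e1)))
  have eB : RC c fun x : α × ℕ => c.dec (i x.1).1.2 :=
    RC.dec (Computable.snd.comp (Computable.fst.comp (hi.comp e1)))
  have et : ∀ j, RC c fun x : α × ℕ => tv c (t x.1) x.2 j :=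
    fun j => rc_tv (ht.comp e1) Computable.snd j
  have et' : ∀ j, RC c fun x : α × ℕ => tv c (t' x.1) x.2 j :=
    fun j => rc_tv (ht'.comp e1) Computable.snd j
  have eg : ∀ j, RC c fun x : α × ℕ => g x.1 j := fun j => (hg j).comp e1
  have eo : ∀ j, RC c fun _ : α × ℕ => (![0, 1, 0] : Fin 3 → R) j := fun j => RC.const _
  have s1 : REPred fun x : α × ℕ => x.2 ≠ k0 x.1 ∨ StepR (c.dec (i x.1).1.1) (c.dec (i x.1).1.2)
      (N x.1) (tv c (t x.1) x.2) (g x.1) (tv c (t' x.1) x.2) :=
    RE.or (RE.ne Computable.snd (hk0.comp e1)) (re_step et eg et' eA eB (hN.comp e1))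
  have s2 : REPred fun x : α × ℕ => x.2 = k0 x.1 ∨ StepR (c.dec (i x.1).1.1) (c.dec (i x.1).1.2)
      (N x.1) (tv c (t x.1) x.2) ![0, 1, 0] (tv c (t' x.1) x.2) :=
    RE.or (RE.eq Computable.snd (hk0.comp e1)) (re_step et eo et' eA eB (hN.comp e1))
  refine (RE.and s1 s2).of_eq fun x => ?_
  constructor
  · rintro ⟨h1, h2⟩
    exact ⟨fun h => h1.resolve_left (fun h' => h' h), fun h => h2.resolve_left h⟩
  · rintro ⟨h1, h2⟩
    constructor
    · by_cases h : x.2 = k0 x.1
      · exact Or.inr (h1 h)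
      · exact Or.inl h
    · by_cases h : x.2 = k0 x.1
      · exact Or.inl h
      · exact Or.inr (h2 h)

end

/-- the certificates are recursively enumerable -/
theorem re_cert : REPred fun i : Inp C => ∃ N T, IsCert c i N T := by
  refine RE.exN (p := fun (i : Inp C) N => ∃ T, IsCert c i N T) ?_
  refine RE.ex (p := fun (x : Inp C × ℕ) T => IsCert c x.1 x.2 T) ?_
  -- the base type
  have ci : Computable fun x : (Inp C × ℕ) × List (List (Tr C)) => x.1.1 :=
    Computable.fst.comp Computable.fst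
  have cN : Computable fun x : (Inp C × ℕ) × List (List (Tr C)) => x.1.2 :=
    Computable.snd.comp Computable.fst
  have cT : Computable fun x : (Inp C × ℕ) × List (List (Tr C)) => x.2 := Computable.snd
  unfold IsCert
  refine RE.and (RE.lt (Computable.const 0) cN) (RE.and (RE.ne cT (Computable.const []))
    (RE.and ?_ ?_))
  · refine RE.all_mem (p := fun (x : (Inp C × ℕ) × List (List (Tr C))) t =>
      (∀ k < x.1.1.2.2.1, OkP (c.dec x.1.1.1.1) (c.dec x.1.1.1.2) x.1.2 (tv c t k)) ∧
      ∃ p ∈ x.1.1.2.2.2, ¬ (x.1.2 : R) ∣ value c (RingHom.id R) (vr (tv c t)) p) ?_ cT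
    refine RE.and ?_ ?_
    · refine RE.all_lt (p := fun (x : ((Inp C × ℕ) × List (List (Tr C))) × List (Tr C)) k =>
        OkP (c.dec x.1.1.1.1.1) (c.dec x.1.1.1.1.2) x.1.1.2 (tv c x.2 k)) ?_
        (Computable.fst.comp (Computable.snd.comp (Computable.snd.comp (ci.comp Computable.fst))))
      have d1 : Computable fun x : (((Inp C × ℕ) × List (List (Tr C))) × List (Tr C)) × ℕ =>
        x.1.1 := Computable.fst.comp Computable.fst
      refine re_okP (fun j => rc_tv (Computable.snd.comp Computable.fst) Computable.snd j) ?_ ?_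
        (cN.comp d1)
      · exact RC.dec (Computable.fst.comp (Computable.fst.comp (ci.comp d1)))
      · exact RC.dec (Computable.snd.comp (Computable.fst.comp (ci.comp d1)))
    · refine RE.ex_mem (p := fun (x : ((Inp C × ℕ) × List (List (Tr C))) × List (Tr C)) p =>
        ¬ (x.1.1.2 : R) ∣ value c (RingHom.id R) (vr (tv c x.2)) p) ?_
        (Computable.snd.comp (Computable.snd.comp (Computable.snd.comp (ci.comp Computable.fst))))
      have d1 : Computable fun x : (((Inp C × ℕ) × List (List (Tr C))) × List (Tr C)) × Po C =>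
        x.1.1 := Computable.fst.comp Computable.fst
      exact (rc_val (Computable.snd.comp Computable.fst) Computable.snd).re_ndvd (cN.comp d1)
  · refine RE.all_mem (p := fun (x : (Inp C × ℕ) × List (List (Tr C))) t =>
      ∀ k0 < x.1.1.2.2.1, ∀ P ∈ x.1.1.2.1, (∃ t' ∈ x.2, Move c x.1.1 x.1.2 t t' k0 (vc c P)) ∧
        ∃ t' ∈ x.2, Move c x.1.1 x.1.2 t t' k0 (ngv (vc c P))) ?_ cT
    refine RE.all_lt (p := fun (x : ((Inp C × ℕ) × List (List (Tr C))) × List (Tr C)) k0 =>
      ∀ P ∈ x.1.1.1.2.1, (∃ t' ∈ x.1.2, Move c x.1.1.1 x.1.1.2 x.2 t' k0 (vc c P)) ∧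
        ∃ t' ∈ x.1.2, Move c x.1.1.1 x.1.1.2 x.2 t' k0 (ngv (vc c P))) ?_
        (Computable.fst.comp (Computable.snd.comp (Computable.snd.comp (ci.comp Computable.fst))))
    refine RE.all_mem (p := fun (x : (((Inp C × ℕ) × List (List (Tr C))) × List (Tr C)) × ℕ) P =>
      (∃ t' ∈ x.1.1.2, Move c x.1.1.1.1 x.1.1.1.2 x.1.2 t' x.2 (vc c P)) ∧
        ∃ t' ∈ x.1.1.2, Move c x.1.1.1.1 x.1.1.1.2 x.1.2 t' x.2 (ngv (vc c P))) ?_
        (Computable.fst.comp (Computable.snd.comp
          (ci.comp (Computable.fst.comp Computable.fst))))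
    have b1 : Computable fun x : (((((Inp C × ℕ) × List (List (Tr C))) × List (Tr C)) × ℕ) ×
        Tr C) × List (Tr C) => x.1.1.1.1 :=
      Computable.fst.comp (Computable.fst.comp (Computable.fst.comp Computable.fst))
    have b2 : Computable fun x : (((((Inp C × ℕ) × List (List (Tr C))) × List (Tr C)) × ℕ) ×
        Tr C) × List (Tr C) => x.1.1.1.2 :=
      Computable.snd.comp (Computable.fst.comp (Computable.fst.comp Computable.fst))
    have b3 : Computable fun x : (((((Inp C × ℕ) × List (List (Tr C))) × List (Tr C)) × ℕ) ×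
        Tr C) × List (Tr C) => x.1.1.2 :=
      Computable.snd.comp (Computable.fst.comp Computable.fst)
    have b4 : ∀ j, RC c fun x : (((((Inp C × ℕ) × List (List (Tr C))) × List (Tr C)) × ℕ) ×
        Tr C) × List (Tr C) => vc c x.1.2 j :=
      fun j => rc_vc c (Computable.snd.comp Computable.fst) j
    have b5 : ∀ j, RC c fun x : (((((Inp C × ℕ) × List (List (Tr C))) × List (Tr C)) × ℕ) ×
        Tr C) × List (Tr C) => ngv (vc c x.1.2) j := by
      intro j
      fin_cases j
      · exact b4 0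
      · exact (b4 1).neg
      · exact b4 2
    have b6 : Computable fun x : (((((Inp C × ℕ) × List (List (Tr C))) × List (Tr C)) × ℕ) ×
        Tr C) => x.1.1.1.2 :=
      Computable.snd.comp (Computable.fst.comp (Computable.fst.comp Computable.fst))
    refine RE.and ?_ ?_
    · refine RE.ex_mem (p := fun (x : ((((Inp C × ℕ) × List (List (Tr C))) × List (Tr C)) × ℕ) ×
        Tr C) t' => Move c x.1.1.1.1.1 x.1.1.1.1.2 x.1.1.2 t' x.1.2 (vc c x.2)) ?_ b6
      exact re_move b4 (cN.comp b1) (ci.comp b1) b2 Computable.snd b3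
    · refine RE.ex_mem (p := fun (x : ((((Inp C × ℕ) × List (List (Tr C))) × List (Tr C)) × ℕ) ×
        Tr C) t' => Move c x.1.1.1.1.1 x.1.1.1.1.2 x.1.1.2 t' x.1.2 (ngv (vc c x.2))) ?_ b6
      exact re_move b5 (cN.comp b1) (ci.comp b1) b2 Computable.snd b3

/-- the rational points are recursively enumerable -/
theorem re_point : REPred fun i : Inp C => ∃ t : List (Tr C), (∀ k < i.2.2.1, tv c t k ≠ 0 ∧
    tv c t k 1 ^ 2 * tv c t k 2 = tv c t k 0 ^ 3 + c.dec i.1.1 * tv c t k 0 * tv c t k 2 ^ 2 +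
      c.dec i.1.2 * tv c t k 2 ^ 3) ∧
    ∀ p ∈ i.2.2.2, value c (RingHom.id R) (vr (tv c t)) p = 0 := by
  refine RE.ex (p := fun (i : Inp C) (t : List (Tr C)) => (∀ k < i.2.2.1, tv c t k ≠ 0 ∧
    tv c t k 1 ^ 2 * tv c t k 2 = tv c t k 0 ^ 3 + c.dec i.1.1 * tv c t k 0 * tv c t k 2 ^ 2 +
      c.dec i.1.2 * tv c t k 2 ^ 3) ∧
    ∀ p ∈ i.2.2.2, value c (RingHom.id R) (vr (tv c t)) p = 0) ?_
  refine RE.and ?_ ?_
  · refine RE.all_lt (p := fun (x : Inp C × List (Tr C)) k => tv c x.2 k ≠ 0 ∧
      tv c x.2 k 1 ^ 2 * tv c x.2 k 2 = tv c x.2 k 0 ^ 3 +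
        c.dec x.1.1.1 * tv c x.2 k 0 * tv c x.2 k 2 ^ 2 + c.dec x.1.1.2 * tv c x.2 k 2 ^ 3) ?_
      (Computable.fst.comp (Computable.snd.comp (Computable.snd.comp Computable.fst)))
    refine re_eqn (fun j => rc_tv (Computable.snd.comp Computable.fst) Computable.snd j) ?_ ?_
    · exact RC.dec (Computable.fst.comp (Computable.fst.comp (Computable.fst.comp Computable.fst)))
    · exact RC.dec (Computable.snd.comp (Computable.fst.comp (Computable.fst.comp Computable.fst)))
  · refine RE.all_mem (p := fun (x : Inp C × List (Tr C)) p =>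
      value c (RingHom.id R) (vr (tv c x.2)) p = 0) ?_
      (Computable.snd.comp (Computable.snd.comp (Computable.snd.comp Computable.fst)))
    exact (rc_val (Computable.snd.comp Computable.fst) Computable.snd).re_zero

end Pool.Agent.Y213.HT
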