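import Pool.Agent.Y213.HT.Alg
import Pool.Agent.TH954.CM
import Pool.Agent.Y213.HT.CodO

/-! Curves whose group of rational points has rank at most one over the endomorphism ring. -/

set_option autoImplicit false

namespace Pool.Agent.Y213.HT

open WeierstrassCurve Pool.Agent.H901R3.MS Pool.Agent.Y213.R1 Pool.Agent.Y213.BD
open IsDedekindDomain NumberField Pool.Agent.TH954 Pool.Agent.TH942 Pool.Agent.Helper446

open scoped Classical in
/-- the group of rational points has rank at most one, or at most two if there is complex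
multiplication -/
def SmallRk {K : Type} [Field K] (E : WeierstrassCurve K) : Prop :=
  Module.rank ℤ E.toAffine.Point ≤ 1 ∨
    ∃ (α : E.toAffine.Point →+ E.toAffine.Point) (F : Fin 3 → MvPolynomial (Fin 3) K)
      (t m : ℤ), EndoForms E α F ∧ t ^ 2 < 4 * m ∧
      (∀ T, α (α T) - t • α T + m • T = 0) ∧ Module.rank ℤ E.toAffine.Point ≤ 2

section K

variable {K C : Type} [Field K] [NumberField K] [Primcodable C] (c : Cod (𝓞 K) C)

open scoped Classical in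
theorem small_eq {a b : K} (hE : ShortInt (sw a b)) (hr : SmallRk (sw a b)) (g : ℕ)
    (S : Set (MvPolynomial (Fin g × Fin 3) K)) (hS : ∀ f ∈ S, ∃ d, MultiHom d f) :
    {x ∈ adelicClosure (E := sw a b) (∅ : Set (HeightOneSpectrum (𝓞 K)))
        {y | ∀ k, y k ∈ (⊤ : AddSubgroup (SPt a b))} | ∀ v, OnX S (fun k => crd (x v k))} =
      adelicClosure (E := sw a b) ∅ {y | (∀ k, y k ∈ (⊤ : AddSubgroup (SPt a b))) ∧
        OnX S (fun k => crd (y k))} := by
  have hell : (sw a b).IsElliptic := sw_ell hE.disc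
  have hrk : Module.rank ℤ (⊤ : AddSubgroup (SPt a b)) = Module.rank ℤ (SPt a b) :=
    (AddSubgroup.topEquiv.toIntLinearEquiv).rank_eq
  rcases hr with h | ⟨α, F, t, m, hF, htm, hrel, h⟩
  · exact rank_one_main (sw a b) rfl rfl rfl hE.ia hE.ib ⊤ (hrk.le.trans h) g S hS ∅
      Set.finite_empty
  · exact cm_main (sw a b) rfl rfl rfl hE.ia hE.ib α F hF t m htm hrel ⊤
      (fun _ _ => AddSubgroup.mem_top _) (hrk.le.trans h) g S hS ∅ Set.finite_empty

open scoped Classical in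
theorem small_dom {i : Inp C} (hi : Adm c i)
    (hr : SmallRk (sw ((c.dec i.1.1 : 𝓞 K) : K) ((c.dec i.1.2 : 𝓞 K) : K)))
    (hno : ¬ HasPt c i) : ¬ ∃ x ∈ adelicClosure
      (E := sw ((c.dec i.1.1 : 𝓞 K) : K) ((c.dec i.1.2 : 𝓞 K) : K)) (n := i.2.2.1) ∅ Set.univ,
        ∀ v, OnX (Sys c i) (fun k => crd (x v k)) := by
  obtain ⟨hd, hfs, -, -⟩ := hi
  have hE := shortInt_sw' _ _ hd
  have h1 := small_eq hE hr i.2.2.1 (Sys c i) (by
      rintro f ⟨p, hp, rfl⟩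
      exact multiHom_toMv c _ _ (hfs p hp))
  rintro ⟨x, hx, hxS⟩
  have h2 : x ∈ adelicClosure
      (E := sw ((c.dec i.1.1 : 𝓞 K) : K) ((c.dec i.1.2 : 𝓞 K) : K)) (∅ : Set
        (HeightOneSpectrum (𝓞 K))) {y | ∀ k, y k ∈ (⊤ : AddSubgroup (SPt
          ((c.dec i.1.1 : 𝓞 K) : K) ((c.dec i.1.2 : 𝓞 K) : K)))} := by
    intro T ε hε
    obtain ⟨y, -, hy⟩ := hx T ε hε
    exact ⟨y, fun _ => AddSubgroup.mem_top _, hy⟩
  have h3 := h1.subset ⟨h2, hxS⟩
  obtain ⟨y, ⟨-, hy⟩, -⟩ := h3 ∅ 1 one_pos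
  apply hno
  let t : ℕ → Fin 3 → K := fun k => if h : k < i.2.2.1 then crd (y ⟨k, h⟩) else 0
  have ht : ∀ k : Fin i.2.2.1, t k = crd (y k) := by
    intro k
    simp only [t, k.2, dif_pos]
  refine ⟨t, fun k hk => ?_, fun p hp => ?_⟩
  · have e : t k = crd (y ⟨k, hk⟩) := ht ⟨k, hk⟩
    rw [e]
    have e2 : crd (y ⟨k, hk⟩) = rep (a := algebraMap (𝓞 K) K (c.dec i.1.1))
      (b := algebraMap (𝓞 K) K (c.dec i.1.2)) (y ⟨k, hk⟩) := crd_eq_rep _
    rw [e2]
    exact ⟨rep_ne_zero _, rep_eqn _⟩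
  · have h4 := hy _ ⟨p, hp, rfl⟩
    rw [MvPolynomial.aeval_def, eval_toMv c (algebraMap (𝓞 K) K) (algebraMap K K) i.2.2.1
      (hfs p hp) (fun k => crd (y k)) t ht] at h4
    exact h4

end K

section final

variable {K : Type} [Field K] [NumberField K] {d : ℕ}

/-- the element with the given coordinates -/
noncomputable def eltK (ω : Module.Basis (Fin d) ℤ (𝓞 K)) (x : Fin d → ℤ) : K :=
  algebraMap (𝓞 K) K (∑ k, x k • ω k)

/-- the value of a list of terms -/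
noncomputable def valK (ω : Module.Basis (Fin d) ℤ (𝓞 K)) (p : List ((Fin d → ℤ) × List ℕ))
    (x : ℕ → K) : K :=
  (p.map fun t => eltK ω t.1 * (t.2.map x).prod).sum

theorem vr_triple (x : ℕ → K) : vr (fun k => ![x (3 * k), x (3 * k + 1), x (3 * k + 2)]) = x := by
  funext j
  unfold vr
  have h3 : j % 3 = 0 ∨ j % 3 = 1 ∨ j % 3 = 2 := by omega
  rcases h3 with h | h | h
  · have e : j = 3 * (j / 3) := by omega
    have : (⟨j % 3, Nat.mod_lt _ (by norm_num)⟩ : Fin 3) = 0 := Fin.ext h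
    rw [this]
    exact congrArg x e.symm
  · have e : j = 3 * (j / 3) + 1 := by omega
    have : (⟨j % 3, Nat.mod_lt _ (by norm_num)⟩ : Fin 3) = 1 := Fin.ext h
    rw [this]
    exact congrArg x e.symm
  · have e : j = 3 * (j / 3) + 2 := by omega
    have : (⟨j % 3, Nat.mod_lt _ (by norm_num)⟩ : Fin 3) = 2 := Fin.ext h
    rw [this]
    exact congrArg x e.symm

theorem hasPt_iff_K (ω : Module.Basis (Fin d) ℤ (𝓞 K)) (i : Inp (Fin d → ℤ)) :
    HasPt (codB ω) i ↔ ∃ x : ℕ → K, (∀ k < i.2.2.1, OnK (eltK ω i.1.1) (eltK ω i.1.2)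
      ![x (3 * k), x (3 * k + 1), x (3 * k + 2)]) ∧ ∀ p ∈ i.2.2.2, valK ω p x = 0 := by
  constructor
  · rintro ⟨t, h1, h2⟩
    refine ⟨vr t, fun k hk => ?_, h2⟩
    have e : ![vr t (3 * k), vr t (3 * k + 1), vr t (3 * k + 2)] = t k := by
      funext j
      unfold vr
      fin_cases j
      · show t (3 * k / 3) _ = t k 0
        have e1 : 3 * k / 3 = k := by omega
        have e2 : (⟨3 * k % 3, Nat.mod_lt _ (by norm_num)⟩ : Fin 3) = 0 := Fin.ext (by
          show 3 * k % 3 = 0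
          omega)
        rw [e2, e1]
      · show t ((3 * k + 1) / 3) _ = t k 1
        have e1 : (3 * k + 1) / 3 = k := by omega
        have e2 : (⟨(3 * k + 1) % 3, Nat.mod_lt _ (by norm_num)⟩ : Fin 3) = 1 := Fin.ext (by
          show (3 * k + 1) % 3 = 1
          omega)
        rw [e2, e1]
      · show t ((3 * k + 2) / 3) _ = t k 2
        have e1 : (3 * k + 2) / 3 = k := by omega
        have e2 : (⟨(3 * k + 2) % 3, Nat.mod_lt _ (by norm_num)⟩ : Fin 3) = 2 := Fin.ext (by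
          show (3 * k + 2) % 3 = 2
          omega)
        rw [e2, e1]
    rw [e]
    exact h1 k hk
  · rintro ⟨x, h1, h2⟩
    refine ⟨fun k => ![x (3 * k), x (3 * k + 1), x (3 * k + 2)], h1, ?_⟩
    rw [vr_triple]
    exact h2

open scoped Classical in
theorem adm_of (ω : Module.Basis (Fin d) ℤ (𝓞 K)) (i : Inp (Fin d → ℤ))
    (h1 : 4 * eltK ω i.1.1 ^ 3 + 27 * eltK ω i.1.2 ^ 2 ≠ 0)
    (h2 : ∀ u ∈ i.2.1, ∃ P : Pt (eltK ω i.1.1) (eltK ω i.1.2),
      ∃ c : K, c ≠ 0 ∧ ![eltK ω u.1, eltK ω u.2.1, eltK ω u.2.2] = c • rep P)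
    (h3 : ∀ P : Pt (eltK ω i.1.1) (eltK ω i.1.2),
      P ∈ AddSubgroup.closure {Q : Pt (eltK ω i.1.1) (eltK ω i.1.2) | ∃ u ∈ i.2.1,
        ∃ c : K, c ≠ 0 ∧ ![eltK ω u.1, eltK ω u.2.1, eltK ω u.2.2] = c • rep Q})
    (h4 : ∀ p ∈ i.2.2.2, MHL i.2.2.1 p) : Adm (codB ω) i := by
  have key : ∀ (u : Tr (Fin d → ℤ)) (Q : Pt (eltK ω i.1.1) (eltK ω i.1.2)),
      (∃ c : K, c ≠ 0 ∧ ![eltK ω u.1, eltK ω u.2.1, eltK ω u.2.2] = c • rep Q) →
      IsRep (R := 𝓞 K) (K := K) (a := (codB ω).dec i.1.1) (b := (codB ω).dec i.1.2) Q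
        (vc (codB ω) u) := by
    rintro u Q ⟨c, hc, h⟩
    refine ⟨c, hc, fun j => ?_⟩
    have h5 := congrFun h j
    rw [Pi.smul_apply, smul_eq_mul] at h5
    refine Eq.trans ?_ h5
    fin_cases j <;> rfl
  refine ⟨?_, h4, ?_, ?_⟩
  · intro h0
    apply h1
    have h5 := congrArg (algebraMap (𝓞 K) K) h0
    simp only [map_add, map_mul, map_pow, map_ofNat, map_zero] at h5
    exact h5
  · intro u hu
    obtain ⟨P, hP⟩ := h2 u hu
    exact ⟨P, key u P hP⟩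
  · intro P
    refine AddSubgroup.closure_mono ?_ (h3 P)
    rintro Q ⟨u, hu, hc⟩
    exact ⟨u, hu, key u Q hc⟩

end final

end Pool.Agent.Y213.HT
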