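import Pool.Agent.Y213.HT.Cod
import Pool.Agent.Y213.HT.Geo
import Pool.Agent.TH954.Poly

/-! Polynomials given as lists of terms, in the coordinates of points of the plane. -/

set_option autoImplicit false

namespace Pool.Agent.Y213.HT

open MvPolynomial

/-- the variables given by a sequence of vectors -/
def vr {L : Type} (t : ℕ → Fin 3 → L) : ℕ → L := fun j => t (j / 3) ⟨j % 3, Nat.mod_lt _ (by norm_num)⟩

/-- multihomogeneous polynomials in the coordinates of the points `0, ..., g - 1` -/
def MHL {C : Type} (g : ℕ) (p : Po C) : Prop :=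
  ∃ e : ℕ → ℕ, ∀ m ∈ p, (∀ j ∈ m.2, j < 3 * g) ∧ ∀ i, m.2.countP (fun j => decide (j / 3 = i)) = e i

section val

variable {R C : Type} [CommRing R] [Primcodable C] (c : Cod R C)

theorem list_prod_scale {L : Type} [CommRing L] {g : ℕ} (k : ℕ → L) (v : ℕ → L) (l : List ℕ)
    (h : ∀ j ∈ l, j < 3 * g) : (l.map fun j => k (j / 3) * v j).prod =
      (∏ i ∈ Finset.range g, k i ^ l.countP (fun j => decide (j / 3 = i))) * (l.map v).prod := by
  induction l with
  | nil => simp
  | cons j l ih =>
    have h1 : j / 3 ∈ Finset.range g := by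
      rw [Finset.mem_range]
      have := h j (List.mem_cons_self ..)
      omega
    rw [List.map_cons, List.prod_cons, ih (fun j' hj' => h j' (List.mem_cons_of_mem _ hj')),
      List.map_cons, List.prod_cons]
    have h2 : ∏ i ∈ Finset.range g, k i ^ (j :: l).countP (fun j => decide (j / 3 = i)) =
        k (j / 3) * ∏ i ∈ Finset.range g, k i ^ l.countP (fun j => decide (j / 3 = i)) := by
      have h3 : ∀ i ∈ Finset.range g, k i ^ (j :: l).countP (fun j => decide (j / 3 = i)) =
          (if i = j / 3 then k (j / 3) else 1) * k i ^ l.countP (fun j => decide (j / 3 = i)) := by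
        intro i _
        rw [List.countP_cons]
        by_cases hij : j / 3 = i
        · subst hij
          simp [pow_succ, mul_comm]
        · have : ¬ i = j / 3 := fun h => hij h.symm
          simp [hij, this]
      rw [Finset.prod_congr rfl h3, Finset.prod_mul_distrib, Finset.prod_ite_eq', if_pos h1]
    rw [h2]
    ring

theorem value_scale {L : Type} [CommRing L] (φ : R →+* L) {g : ℕ} {p : Po C} (hp : MHL g p)
    (k : ℕ → L) (v : ℕ → L) : ∃ e : ℕ → ℕ,
      value c φ (fun j => k (j / 3) * v j) p = (∏ i ∈ Finset.range g, k i ^ e i) * value c φ v p := by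
  obtain ⟨e, he⟩ := hp
  refine ⟨e, ?_⟩
  unfold value
  rw [← List.sum_map_mul_left]
  congr 1
  apply List.map_congr_left
  intro m hm
  obtain ⟨h1, h2⟩ := he m hm
  rw [list_prod_scale k v m.2 h1]
  simp only [h2]
  ring

theorem value_map {L L' : Type} [CommRing L] [CommRing L'] (φ : R →+* L) (ψ : L →+* L')
    (v : ℕ → L) (p : Po C) : ψ (value c φ v p) = value c (ψ.comp φ) (fun j => ψ (v j)) p := by
  unfold value
  rw [map_list_sum, List.map_map]
  congr 1
  apply List.map_congr_left
  intro m _
  simp only [Function.comp_apply, map_mul, RingHom.comp_apply, map_list_prod, List.map_map]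
  rfl

theorem value_congr {L : Type} [CommRing L] (φ : R →+* L) {g : ℕ} {p : Po C} (hp : MHL g p)
    {v v' : ℕ → L} (h : ∀ j < 3 * g, v j = v' j) : value c φ v p = value c φ v' p := by
  obtain ⟨e, he⟩ := hp
  unfold value
  congr 1
  apply List.map_congr_left
  intro m hm
  obtain ⟨h1, -⟩ := he m hm
  rw [List.map_congr_left (fun j hj => h j (h1 j hj))]

theorem cong_scale {N : ℕ} {s u : Fin 3 → R} (hs : Prm N s) (h : CongR N s u) :
    ∃ k : R, ∀ i, (N : R) ∣ u i - k * s i := by
  obtain ⟨W, z, hW⟩ := hs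
  refine ⟨u 0 * W 0 + u 1 * W 1 + u 2 * W 2, fun i => ?_⟩
  obtain ⟨x0, h0⟩ := h 0 i
  obtain ⟨x1, h1⟩ := h 1 i
  obtain ⟨x2, h2⟩ := h 2 i
  refine ⟨W 0 * x0 + W 1 * x1 + W 2 * x2 + z * u i, ?_⟩
  linear_combination W 0 * h0 + W 1 * h1 + W 2 * h2 - u i * hW

/-- vanishing modulo `N` depends only on the classes of the points -/
theorem transfer_val {N g : ℕ} {p : Po C} (hp : MHL g p) {s u : ℕ → Fin 3 → R}
    (hs : ∀ i < g, Prm N (s i)) (h : ∀ i < g, CongR N (s i) (u i))
    (h0 : (N : R) ∣ value c (RingHom.id R) (vr s) p) :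
    (N : R) ∣ value c (RingHom.id R) (vr u) p := by
  set ι : R →+* R ⧸ Ideal.span {(N : R)} := Ideal.Quotient.mk _ with hι
  have hz : ∀ x : R, ι x = 0 ↔ (N : R) ∣ x := fun x => by
    rw [hι, Ideal.Quotient.eq_zero_iff_mem, Ideal.mem_span_singleton]
  have hk : ∀ i, ∃ k : R, i < g → ∀ l, (N : R) ∣ u i l - k * s i l := by
    intro i
    by_cases hi : i < g
    · obtain ⟨k, hk⟩ := cong_scale (hs i hi) (h i hi)
      exact ⟨k, fun _ => hk⟩
    · exact ⟨0, fun h => absurd h hi⟩
  choose k hk using hk
  rw [← hz, value_map]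
  rw [← hz, value_map] at h0
  obtain ⟨e, he⟩ := value_scale c (ι.comp (RingHom.id R)) hp (fun i => ι (k i))
    (fun j => ι (vr s j))
  rw [h0, mul_zero] at he
  rw [← he]
  apply value_congr c _ hp
  intro j hj
  have h1 := hk (j / 3) (by omega) ⟨j % 3, Nat.mod_lt _ (by norm_num)⟩
  rw [← hz, map_sub, map_mul, sub_eq_zero] at h1
  exact h1

/-- the polynomial as an element of the polynomial ring -/
noncomputable def toMv {L : Type} [CommRing L] (φ : R →+* L) (g : ℕ) (p : Po C) :
    MvPolynomial (Fin g × Fin 3) L :=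
  (p.map fun m => MvPolynomial.C (φ (c.dec m.1)) * (m.2.map fun j =>
    if h : j / 3 < g then
      (X (⟨j / 3, h⟩, ⟨j % 3, Nat.mod_lt _ (by norm_num)⟩) : MvPolynomial (Fin g × Fin 3) L)
    else 1).prod).sum

theorem eval_toMv {L L' : Type} [CommRing L] [CommRing L'] (φ : R →+* L) (ψ : L →+* L') (g : ℕ)
    {p : Po C} (hp : MHL g p) (w : Fin g → Fin 3 → L') (w' : ℕ → Fin 3 → L')
    (hw : ∀ i : Fin g, w' i = w i) :
    eval₂ ψ (fun q : Fin g × Fin 3 => w q.1 q.2) (toMv c φ g p) =
      value c (ψ.comp φ) (vr w') p := by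
  obtain ⟨e, he⟩ := hp
  unfold toMv value
  rw [← coe_eval₂Hom, map_list_sum, List.map_map]
  congr 1
  apply List.map_congr_left
  intro m hm
  obtain ⟨h1, -⟩ := he m hm
  rw [Function.comp_apply, map_mul, map_list_prod, List.map_map, coe_eval₂Hom, eval₂_C]
  congr 2
  apply List.map_congr_left
  intro j hj
  have h2 : j / 3 < g := by
    have := h1 j hj
    omega
  simp only [Function.comp_apply, h2, dif_pos, coe_eval₂Hom, eval₂_X]
  unfold vr
  exact (congrFun (hw ⟨j / 3, h2⟩) _).symm

theorem multiHom_mul_X {L : Type} [Field L] {g : ℕ} {d : Fin g → ℕ}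
    {f : MvPolynomial (Fin g × Fin 3) L} (hf : Pool.Agent.TH954.MultiHom d f) (q : Fin g × Fin 3) :
    Pool.Agent.TH954.MultiHom (fun i => d i + if i = q.1 then 1 else 0) (f * X q) := by
  classical
  intro m hm i
  rw [support_mul_X, Finset.mem_map] at hm
  obtain ⟨m', hm', rfl⟩ := hm
  have h1 := hf m' hm' i
  simp only [addRightEmbedding_apply, Finsupp.coe_add, Pi.add_apply, Finset.sum_add_distrib, h1,
    add_right_inj]
  by_cases h : i = q.1
  · rw [if_pos h]
    rw [Finset.sum_eq_single q.2]
    · rw [h]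
      simp
    · intro j _ hj
      rw [Finsupp.single_apply, if_neg]
      intro h2
      apply hj
      rw [h2]
    · intro h2
      exact absurd (Finset.mem_univ _) h2
  · rw [if_neg h]
    apply Finset.sum_eq_zero
    intro j _
    rw [Finsupp.single_apply, if_neg]
    intro h2
    apply h
    rw [h2]

theorem multiHom_add {L : Type} [Field L] {g : ℕ} {d : Fin g → ℕ}
    {f f' : MvPolynomial (Fin g × Fin 3) L} (hf : Pool.Agent.TH954.MultiHom d f)
    (hf' : Pool.Agent.TH954.MultiHom d f') : Pool.Agent.TH954.MultiHom d (f + f') := by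
  classical
  intro m hm i
  rcases Finset.mem_union.1 (support_add hm) with h | h
  · exact hf m h i
  · exact hf' m h i

theorem multiHom_toMv {L : Type} [Field L] (φ : R →+* L) (g : ℕ) {p : Po C} (hp : MHL g p) :
    ∃ d, Pool.Agent.TH954.MultiHom d (toMv c φ g p) := by
  obtain ⟨e, he⟩ := hp
  refine ⟨fun i => e i, ?_⟩
  have key : ∀ (l : List ℕ), (∀ j ∈ l, j < 3 * g) → ∀ r : L,
      Pool.Agent.TH954.MultiHom (fun i : Fin g => l.countP (fun j => decide (j / 3 = (i : ℕ))))
        (MvPolynomial.C r * (l.map fun j => if h : j / 3 < g then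
          (X (⟨j / 3, h⟩, ⟨j % 3, Nat.mod_lt _ (by norm_num)⟩) : MvPolynomial (Fin g × Fin 3) L)
          else 1).prod) := by
    intro l
    induction l with
    | nil =>
      intro _ r m hm i
      simp only [List.map_nil, List.prod_nil, mul_one] at hm
      rw [mem_support_iff, coeff_C] at hm
      split_ifs at hm with h0
      · subst h0
        simp
      · exact absurd rfl hm
    | cons j l ih =>
      intro hl r
      have h1 : j / 3 < g := by
        have := hl j (List.mem_cons_self ..)
        omega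
      have h2 := multiHom_mul_X (ih (fun j' hj' => hl j' (List.mem_cons_of_mem _ hj')) r)
        (⟨j / 3, h1⟩, ⟨j % 3, Nat.mod_lt _ (by norm_num)⟩)
      intro m hm i
      rw [List.map_cons, List.prod_cons, dif_pos h1, mul_comm (X _), ← mul_assoc] at hm
      rw [h2 m hm i]
      show _ = List.countP (fun j => decide (j / 3 = (i : ℕ))) (j :: l)
      rw [List.countP_cons]
      simp only [decide_eq_true_eq]
      congr 1
      by_cases h3 : j / 3 = (i : ℕ)
      · rw [if_pos h3, if_pos (Fin.ext h3.symm)]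
      · rw [if_neg h3, if_neg]
        intro h4
        apply h3
        rw [h4]
  unfold toMv
  induction p with
  | nil =>
    intro m hm i
    simp at hm
  | cons m p ih =>
    rw [List.map_cons, List.sum_cons]
    refine multiHom_add ?_ (ih fun m' hm' => he m' (List.mem_cons_of_mem _ hm'))
    obtain ⟨h1, h2⟩ := he m (List.mem_cons_self ..)
    have h3 := key m.2 h1 (φ (c.dec m.1))
    have h4 : (fun i : Fin g => m.2.countP (fun j => decide (j / 3 = (i : ℕ)))) =
        fun i : Fin g => e i := by
      funext i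
      exact h2 i
    rw [h4] at h3
    exact h3

end val

end Pool.Agent.Y213.HT
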